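import Mathlib

/-!
# Project SB (MP_fc6b1e_nt): vectors with a cyclic symmetry of the spanning sets

If the family of the spanning subsets of the vectors `l i`, `i ∈ I`, is invariant under a cyclic permutation of `I`, then
every `D` consecutive vectors span, where `D` is the dimension.
-/

set_option autoImplicit false

namespace Pool.Agent.Helper16.SB

open Module

variable {k V I : Type} [Field k] [AddCommGroup V] [Module k V]

theorem indep_finrank (l : I → V) (B : Set I) [Finite I] (hB : LinearIndepOn k l B) :
    finrank k (Submodule.span k (l '' B)) = B.ncard := by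
  classical
  have : Fintype I := Fintype.ofFinite I
  have : Fintype B := Fintype.ofFinite B
  rw [Set.image_eq_range]
  have h := finrank_span_eq_card hB
  rw [Set.ncard_eq_toFinset_card', Set.toFinset_card]
  exact h

theorem finrank_le_ncard (l : I → V) (B : Set I) [Finite I] :
    finrank k (Submodule.span k (l '' B)) ≤ B.ncard := by
  classical
  obtain ⟨b, hb1, hb2, h1, h2⟩ := exists_linearIndepOn_extension (linearIndepOn_empty k l)
    (Set.empty_subset B)
  have h3 : Submodule.span k (l '' B) = Submodule.span k (l '' b) :=
    le_antisymm (Submodule.span_le.2 h1) (Submodule.span_mono (Set.image_mono hb1))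
  rw [h3, indep_finrank l b h2]
  exact Set.ncard_le_ncard hb1 (Set.toFinite _)

/-- Every set can be completed to a spanning set by `D - r` elements. -/
theorem exists_completion [FiniteDimensional k V] [Finite I] (l : I → V)
    (huniv : Submodule.span k (Set.range l) = ⊤) (T : Set I) :
    ∃ A : Set I, A.ncard + finrank k (Submodule.span k (l '' T)) ≤ finrank k V ∧
      Submodule.span k (l '' (T ∪ A)) = ⊤ := by
  classical
  obtain ⟨B, hB1, -, h1, h2⟩ := exists_linearIndepOn_extension (linearIndepOn_empty k l)
    (Set.empty_subset T)
  obtain ⟨b, -, hb, h3, h4⟩ := exists_linearIndepOn_extension h2 (Set.subset_univ B)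
  have h5 : Submodule.span k (l '' b) = ⊤ := by
    rw [← huniv]
    refine le_antisymm (Submodule.span_mono (Set.image_subset_range l b)) ?_
    rw [← Set.image_univ]
    exact Submodule.span_le.2 h3
  refine ⟨b \ B, ?_, ?_⟩
  · have e1 : finrank k (Submodule.span k (l '' T)) = B.ncard := by
      have h6 : Submodule.span k (l '' T) = Submodule.span k (l '' B) :=
        le_antisymm (Submodule.span_le.2 h1) (Submodule.span_mono (Set.image_mono hB1))
      rw [h6, indep_finrank l B h2]
    have e2 : finrank k V = b.ncard := by
      rw [← indep_finrank l b h4, h5, finrank_top]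
    have e3 := Set.ncard_sdiff hb (Set.toFinite B)
    have e4 := Set.ncard_le_ncard hb (Set.toFinite b)
    omega
  · rw [eq_top_iff, ← h5]
    apply Submodule.span_mono
    apply Set.image_mono
    intro x hx
    by_cases hxB : x ∈ B
    · exact Or.inl (hB1 hxB)
    · exact Or.inr ⟨hx, hxB⟩

theorem rank_mono [FiniteDimensional k V] (l : I → V) {T T' : Set I} (h : T ⊆ T') :
    finrank k (Submodule.span k (l '' T)) ≤ finrank k (Submodule.span k (l '' T')) :=
  Submodule.finrank_mono (Submodule.span_mono (Set.image_mono h))

/-- Submodularity. -/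
theorem rank_submod [FiniteDimensional k V] (l : I → V) (T T' U W : Set I) (hU : U ⊆ T ∪ T')
    (hW : W ⊆ T ∩ T') :
    finrank k (Submodule.span k (l '' U)) + finrank k (Submodule.span k (l '' W)) ≤
      finrank k (Submodule.span k (l '' T)) + finrank k (Submodule.span k (l '' T')) := by
  rw [← Submodule.finrank_sup_add_finrank_inf_eq (Submodule.span k (l '' T))
    (Submodule.span k (l '' T'))]
  apply Nat.add_le_add
  · apply Submodule.finrank_mono
    rw [← Submodule.span_union, ← Set.image_union]
    exact Submodule.span_mono (Set.image_mono hU)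
  · apply Submodule.finrank_mono
    apply le_inf
    · exact Submodule.span_mono (Set.image_mono (hW.trans Set.inter_subset_left))
    · exact Submodule.span_mono (Set.image_mono (hW.trans Set.inter_subset_right))

/-- If the spanning sets are invariant under `f`, the rank does not decrease. -/
theorem rank_le_image [FiniteDimensional k V] [Finite I] (l : I → V)
    (huniv : Submodule.span k (Set.range l) = ⊤) (f : I → I)
    (hf : ∀ T : Set I, Submodule.span k (l '' T) = ⊤ → Submodule.span k (l '' (f '' T)) = ⊤)
    (T : Set I) :
    finrank k (Submodule.span k (l '' T)) ≤ finrank k (Submodule.span k (l '' (f '' T))) := by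
  obtain ⟨A, h1, h2⟩ := exists_completion l huniv T
  have h3 := hf _ h2
  rw [Set.image_union, Set.image_union, Submodule.span_union] at h3
  have h4 := Submodule.finrank_add_le_finrank_add_finrank (Submodule.span k (l '' (f '' T)))
    (Submodule.span k (l '' (f '' A)))
  rw [h3, finrank_top] at h4
  have h5 := finrank_le_ncard (k := k) l (f '' A)
  have h6 : (f '' A).ncard ≤ A.ncard := Set.ncard_image_le (Set.toFinite A)
  omega

theorem rank_le_iterate [FiniteDimensional k V] [Finite I] (l : I → V)
    (huniv : Submodule.span k (Set.range l) = ⊤) (f : I → I)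
    (hf : ∀ T : Set I, Submodule.span k (l '' T) = ⊤ → Submodule.span k (l '' (f '' T)) = ⊤)
    (T : Set I) (n : ℕ) :
    finrank k (Submodule.span k (l '' T)) ≤ finrank k (Submodule.span k (l '' (f^[n] '' T))) := by
  induction n with
  | zero => rw [Function.iterate_zero, Set.image_id]
  | succ n ih =>
    refine ih.trans ?_
    rw [Function.iterate_succ', Set.image_comp]
    exact rank_le_image l huniv f hf _

/-- The interval `{i₀, f i₀, ..., f^(m-1) i₀}`. -/
def Iv (f : I → I) (i₀ : I) (m : ℕ) : Set I := {x | ∃ i, i < m ∧ x = f^[i] i₀}

/-- **The theorem.** -/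
theorem span_interval [FiniteDimensional k V] [Finite I] (l : I → V)
    (huniv : Submodule.span k (Set.range l) = ⊤) (f : I → I) (N : ℕ) (hN : 0 < N)
    (hfN : f^[N] = id)
    (hf : ∀ T : Set I, Submodule.span k (l '' T) = ⊤ → Submodule.span k (l '' (f '' T)) = ⊤)
    (i₀ : I) (hcyc : ∀ x, ∃ i, i < N ∧ x = f^[i] i₀) (m : ℕ) (hm : finrank k V ≤ m) :
    Submodule.span k (l '' Iv f i₀ m) = ⊤ := by
  classical
  set r : ℕ → ℕ := fun n ↦ finrank k (Submodule.span k (l '' Iv f i₀ n)) with hr
  -- the rank of the image of an interval
  have himg : ∀ T : Set I, finrank k (Submodule.span k (l '' (f '' T))) =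
      finrank k (Submodule.span k (l '' T)) := by
    intro T
    refine le_antisymm ?_ (rank_le_image l huniv f hf T)
    have h1 := rank_le_iterate l huniv f hf (f '' T) (N - 1)
    have h2 : f^[N - 1] '' (f '' T) = T := by
      rw [← Set.image_comp, ← Function.iterate_succ, Nat.succ_eq_add_one,
        Nat.sub_add_cancel hN, hfN, Set.image_id]
    rw [h2] at h1
    exact h1
  have hsub : ∀ n, r (n + 2) + r n ≤ r (n + 1) + r (n + 1) := by
    intro n
    have h1 := rank_submod (k := k) l (Iv f i₀ (n + 1)) (f '' Iv f i₀ (n + 1)) (Iv f i₀ (n + 2))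
      (f '' Iv f i₀ n) (by
        rintro x ⟨i, hi, rfl⟩
        rcases Nat.eq_zero_or_pos i with h0 | h0
        · subst h0
          exact Or.inl ⟨0, by omega, rfl⟩
        · refine Or.inr ⟨f^[i - 1] i₀, ⟨i - 1, by omega, rfl⟩, ?_⟩
          rw [← Function.iterate_succ_apply' f, Nat.succ_eq_add_one, Nat.sub_add_cancel h0])
      (by
        rintro _ ⟨_, ⟨i, hi, rfl⟩, rfl⟩
        refine ⟨⟨i + 1, by omega, ?_⟩, ⟨f^[i] i₀, ⟨i, by omega, rfl⟩, rfl⟩⟩
        rw [← Function.iterate_succ_apply' f])
    rw [himg, himg] at h1
    exact h1
  have hmono : ∀ n, r n ≤ r (n + 1) := by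
    intro n
    apply rank_mono
    rintro x ⟨i, hi, rfl⟩
    exact ⟨i, by omega, rfl⟩
  have hr0 : r 0 = 0 := by
    have h1 : Iv f i₀ 0 = ∅ := by
      ext x
      constructor
      · rintro ⟨i, hi, -⟩
        omega
      · rintro ⟨⟩
    show finrank k (Submodule.span k (l '' Iv f i₀ 0)) = 0
    rw [h1, Set.image_empty, Submodule.span_empty, finrank_bot]
  have hrN : r N = finrank k V := by
    have h1 : Iv f i₀ N = Set.univ := by
      ext x
      constructor
      · intro _
        trivial
      · intro _
        exact hcyc x
    show finrank k (Submodule.span k (l '' Iv f i₀ N)) = _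
    rw [h1, Set.image_univ, huniv, finrank_top]
  -- if the rank stops growing it is constant
  have hstop : ∀ n, r (n + 1) = r n → ∀ j, r (n + j) = r n := by
    intro n hn j
    have key : ∀ j, r (n + j) = r n ∧ r (n + j + 1) = r n := by
      intro j
      induction j with
      | zero => exact ⟨rfl, hn⟩
      | succ j ih =>
        have h1 := hsub (n + j)
        have h2 := hmono (n + j + 1)
        have e1 : n + j + 2 = n + (j + 1) + 1 := by ring
        have e2 : n + j + 1 = n + (j + 1) := by ring
        rw [e1] at h1
        rw [e2] at h1 h2 ih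
        refine ⟨ih.2, ?_⟩
        have := ih.1
        have := ih.2
        omega
    exact (key j).1
  -- before it reaches the dimension it grows
  have hgrow : ∀ n, r n = finrank k V ∨ n ≤ r n := by
    intro n
    induction n with
    | zero => exact Or.inr (Nat.zero_le _)
    | succ n ih =>
      by_cases hs : r (n + 1) = r n
      · left
        have h1 := hstop n hs (n + N + 1)
        have h2 : r N ≤ r (n + (n + N + 1)) := by
          apply rank_mono
          rintro x ⟨i, hi, rfl⟩
          exact ⟨i, by omega, rfl⟩
        have h3 : r n ≤ finrank k V := Submodule.finrank_le _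
        rw [h1, hrN] at h2
        rw [hs]
        omega
      · have h2 := hmono n
        rcases ih with h1 | h1
        · have h3 : r (n + 1) ≤ finrank k V := Submodule.finrank_le _
          left
          omega
        · right
          omega
  have hfin : r m = finrank k V := by
    have h3 : r m ≤ finrank k V := Submodule.finrank_le _
    rcases hgrow m with h | h
    · exact h
    · omega
  exact Submodule.eq_top_of_finrank_eq hfin

end Pool.Agent.Helper16.SB
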