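import Pool.Agent.Helper32.TH.EIMG

/-!
# Project SB (MP_fc6b1e_nt): automorphisms of `ℂ_p` and roots of unity of order `p ^ a`
-/

set_option autoImplicit false

namespace Pool.Agent.Helper16.SB

open Polynomial IntermediateField

variable (p : ℕ) [Fact p.Prime]

/-- Extension of an automorphism of the algebraic closure of `ℚ_p` to `ℂ_p`. -/
theorem exists_ext (s : PadicAlgCl p ≃ₐ[ℚ_[p]] PadicAlgCl p) :
    ∃ t : ℂ_[p] ≃ₐ[ℚ_[p]] ℂ_[p], ∀ x : PadicAlgCl p, t (x : ℂ_[p]) = (s x : PadicAlgCl p) := by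
  have hn : ∀ (s : PadicAlgCl p ≃ₐ[ℚ_[p]] PadicAlgCl p) (y : PadicAlgCl p), ‖s y‖ = ‖y‖ :=
    fun s y ↦ (spectralNorm_eq_of_equiv (K := ℚ_[p]) s y).symm
  have hc : ∀ s : PadicAlgCl p ≃ₐ[ℚ_[p]] PadicAlgCl p,
      Continuous (s : PadicAlgCl p → PadicAlgCl p) := by
    intro s
    exact (AddMonoidHomClass.isometry_of_norm (s : PadicAlgCl p ≃+* PadicAlgCl p)
      (fun y ↦ hn s y)).continuous
  let t : ℂ_[p] ≃+* ℂ_[p] :=
    UniformSpace.Completion.mapRingEquiv (s : PadicAlgCl p ≃+* PadicAlgCl p) (hc s) (hc s.symm)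
  have ht : ∀ x : PadicAlgCl p, t (x : ℂ_[p]) = (s x : PadicAlgCl p) := fun x ↦
    UniformSpace.Completion.mapRingHom_coe (f := (s : PadicAlgCl p ≃+* PadicAlgCl p).toRingHom)
      (hc s) x
  refine ⟨AlgEquiv.ofRingEquiv (f := t) fun x ↦ ?_, fun x ↦ ht x⟩
  have h1 : algebraMap ℚ_[p] ℂ_[p] x = ((algebraMap ℚ_[p] (PadicAlgCl p) x : PadicAlgCl p) :
      ℂ_[p]) := rfl
  rw [h1, ht, s.commutes]

/-- The automorphisms act transitively on the primitive roots of unity of order `p ^ (n + 1)`. -/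
theorem exists_alg (n : ℕ) (ζ ζ' : PadicAlgCl p) (h : IsPrimitiveRoot ζ (p ^ (n + 1)))
    (h' : IsPrimitiveRoot ζ' (p ^ (n + 1))) :
    ∃ s : PadicAlgCl p ≃ₐ[ℚ_[p]] PadicAlgCl p, s ζ = ζ' := by
  have hp : p.Prime := Fact.out
  have hpos : 0 < p ^ (n + 1) := pow_pos hp.pos _
  have hmon : (((cyclotomic (p ^ (n + 1)) ℤ_[p]).comp (X + 1)).map
      (algebraMap ℤ_[p] ℚ_[p])).Monic := by
    refine Monic.map _ ?_
    rw [show (X + 1 : ℤ_[p][X]) = X + C 1 by simp]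
    refine (cyclotomic.monic _ ℤ_[p]).comp (monic_X_add_C 1) fun h => ?_
    rw [natDegree_X_add_C] at h
    exact zero_ne_one h.symm
  have key : ∀ z : PadicAlgCl p, IsPrimitiveRoot z (p ^ (n + 1)) →
      minpoly ℚ_[p] (z - 1) = ((cyclotomic (p ^ (n + 1)) ℤ_[p]).comp (X + 1)).map
      (algebraMap ℤ_[p] ℚ_[p]) := by
    intro z hz
    have hroot : aeval (z - 1) (((cyclotomic (p ^ (n + 1)) ℤ_[p]).comp (X + 1)).map
        (algebraMap ℤ_[p] ℚ_[p])) = 0 := by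
      rw [Polynomial.map_comp, map_cyclotomic, aeval_comp]
      have h7 : aeval (z - 1) (((X : ℤ_[p][X]) + 1).map (algebraMap ℤ_[p] ℚ_[p])) = z := by
        simp
      rw [h7, aeval_def, ← eval_map, map_cyclotomic]
      exact hz.isRoot_cyclotomic hpos
    exact (minpoly.eq_of_irreducible_of_monic (Pool.Agent.Helper32.TH.EIMG.irr p n) hroot hmon).symm
  have hconj : IsConjRoot ℚ_[p] (ζ' - 1) (ζ - 1) := by
    rw [IsConjRoot, key ζ h, key ζ' h']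
  obtain ⟨s, hs⟩ := isConjRoot_iff_exists_algEquiv.1 hconj
  refine ⟨s, ?_⟩
  have h1 : s ζ - 1 = ζ' - 1 := by
    rw [← hs, map_sub, map_one]
  exact sub_left_injective h1

/-- For `k` prime to `p` there is an automorphism of `ℂ_p` over `ℚ_p` which raises the roots of unity of order `p ^ n` to the
power `k`. -/
theorem exists_aut (n k : ℕ) (hk : k.Coprime p) :
    ∃ s : ℂ_[p] ≃ₐ[ℚ_[p]] ℂ_[p], ∀ z : ℂ_[p], z ^ p ^ n = 1 → s z = z ^ k := by
  have hp : p.Prime := Fact.out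
  have : NeZero ((p ^ (n + 1) : ℕ) : PadicAlgCl p) :=
    ⟨Nat.cast_ne_zero.2 (pow_ne_zero _ (Fact.out : p.Prime).ne_zero)⟩
  obtain ⟨ζ, hζ⟩ := HasEnoughRootsOfUnity.exists_primitiveRoot (PadicAlgCl p) (p ^ (n + 1))
  have hζ' : IsPrimitiveRoot (ζ ^ k) (p ^ (n + 1)) := hζ.pow_of_coprime k (hk.pow_right _)
  obtain ⟨s, hs⟩ := exists_alg p n ζ (ζ ^ k) hζ hζ'
  obtain ⟨t, ht⟩ := exists_ext p s
  refine ⟨t, fun z hz ↦ ?_⟩
  have hζC : IsPrimitiveRoot ((ζ : PadicAlgCl p) : ℂ_[p]) (p ^ (n + 1)) :=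
    hζ.map_of_injective (f := algebraMap (PadicAlgCl p) ℂ_[p])
      (algebraMap (PadicAlgCl p) ℂ_[p]).injective
  have hz' : z ^ p ^ (n + 1) = 1 := by
    rw [pow_succ, pow_mul, hz, one_pow]
  obtain ⟨i, _, rfl⟩ := hζC.eq_pow_of_pow_eq_one hz'
  have h1 : t ((ζ : PadicAlgCl p) : ℂ_[p]) = ((ζ : PadicAlgCl p) : ℂ_[p]) ^ k := by
    rw [ht, hs]
    exact map_pow (algebraMap (PadicAlgCl p) ℂ_[p]) ζ k
  rw [map_pow, h1, ← pow_mul, ← pow_mul, mul_comm]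

end Pool.Agent.Helper16.SB
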