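import Pool.Agent.Helper38.SC.Goals

/-!
# Project SB (MP_fc6b1e_nt): CM types of cyclic fields
-/

set_option autoImplicit false

namespace Pool.Agent.Helper16.SB

open NumberField Module
open Pool.Agent.Helper51.SigLeo (IsCMType)
open Pool.Agent.Helper38.SC (Prog Primitive S_TOR S_CM S_PRIM S_DUO)

section tor

variable {K L : Type} [Field K] [NumberField K] [Field L]

/-- `φ ∘ g`. -/
abbrev cp (φ : K →+* L) (g : K ≃ₐ[ℚ] K) : K →+* L := φ.comp (g : K →+* K)

theorem cp_mul (φ : K →+* L) (g h : K ≃ₐ[ℚ] K) : cp (cp φ g) h = cp φ (g * h) := rfl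

theorem cp_one (φ : K →+* L) : cp φ (1 : K ≃ₐ[ℚ] K) = φ := rfl

theorem cp_injective (φ : K →+* L) {g h : K ≃ₐ[ℚ] K} (e : cp φ g = cp φ h) : g = h := by
  ext x
  exact φ.injective (RingHom.congr_fun e x)

theorem cp_pow_eq (φ : K →+* L) (g : K ≃ₐ[ℚ] K) (i j : ℕ) :
    cp φ (g ^ i) = cp φ (g ^ j) ↔ i ≡ j [MOD orderOf g] := by
  constructor
  · intro h
    exact pow_eq_pow_iff_modEq.1 (cp_injective φ h)
  · intro h
    rw [pow_eq_pow_iff_modEq.2 h]

theorem s_tor : S_TOR := by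
  intro K L _ _ _ _ _ g hg φ ψ
  have hf : Function.Injective (fun i : Fin (finrank ℚ K) ↦ cp φ (g ^ (i : ℕ))) := by
    intro i j h
    have h1 := (cp_pow_eq φ g i j).1 h
    rw [hg] at h1
    have h2 := Nat.ModEq.eq_of_lt_of_lt h1 i.2 j.2
    exact Fin.ext h2
  have hcard : Fintype.card (Fin (finrank ℚ K)) = Fintype.card (K →+* L) := by
    rw [Fintype.card_fin, NumberField.Embeddings.card K L]
  have hb := (Fintype.bijective_iff_injective_and_card _).2 ⟨hf, hcard⟩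
  obtain ⟨i, hi⟩ := hb.2 ψ
  exact ⟨i, i.2, hi.symm⟩

end tor

section cm

variable {K : Type} [Field K] [NumberField K] [IsTotallyComplex K]

theorem conj_eq (g : K ≃ₐ[ℚ] K) (d : ℕ) (hd : finrank ℚ K = 2 * d) (hg : orderOf g = 2 * d)
    (φ : K →+* ℂ) : ComplexEmbedding.conjugate φ = cp φ (g ^ d) := by
  obtain ⟨j, hj, hj'⟩ := s_tor K ℂ g (by rw [hg, hd]) φ (ComplexEmbedding.conjugate φ)
  have h1 : ComplexEmbedding.conjugate (ComplexEmbedding.conjugate φ) = φ :=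
    ComplexEmbedding.involutive_conjugate K φ
  have h2 : ComplexEmbedding.conjugate (cp φ (g ^ j)) =
      cp (ComplexEmbedding.conjugate φ) (g ^ j) := rfl
  have h3 : cp φ (g ^ (j + j)) = cp φ (g ^ 0) := by
    rw [pow_add, ← cp_mul, pow_zero, cp_one]
    have h4 : cp φ (g ^ j) = ComplexEmbedding.conjugate φ := hj'.symm
    calc cp (cp φ (g ^ j)) (g ^ j) = cp (ComplexEmbedding.conjugate φ) (g ^ j) := by rw [h4]
      _ = ComplexEmbedding.conjugate (cp φ (g ^ j)) := h2.symm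
      _ = ComplexEmbedding.conjugate (ComplexEmbedding.conjugate φ) := by rw [h4]
      _ = φ := h1
  rw [cp_pow_eq, hg, Nat.modEq_zero_iff_dvd] at h3
  obtain ⟨q, hq⟩ := h3
  rw [hd] at hj
  have h5 : j = d * q := by nlinarith
  have h6 : q < 2 := by
    by_contra hq2
    have : 2 ≤ q := by omega
    nlinarith
  interval_cases q
  · exfalso
    have h7 : j = 0 := by omega
    rw [h7, pow_zero] at hj'
    have h8 : ComplexEmbedding.IsReal φ := hj'
    exact IsTotallyComplex.complexEmbedding_not_isReal φ h8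
  · rw [mul_one] at h5
    rw [hj', h5]

omit [IsTotallyComplex K] in
theorem mem_prog (g : K ≃ₐ[ℚ] K) (d : ℕ) (φ : K →+* ℂ) (i : ℕ) :
    cp φ (g ^ i) ∈ Prog d g φ ↔ ∃ m < d, i ≡ m [MOD orderOf g] := by
  constructor
  · rintro ⟨m, hm, h⟩
    exact ⟨m, hm, (cp_pow_eq φ g i m).1 h⟩
  · rintro ⟨m, hm, h⟩
    exact ⟨m, hm, (cp_pow_eq φ g i m).2 h⟩

theorem prog_cm (g : K ≃ₐ[ℚ] K) (d : ℕ) (hd : finrank ℚ K = 2 * d) (hg : orderOf g = 2 * d)
    (φ : K →+* ℂ) : IsCMType (Prog d g φ) := by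
  have hd0 : 0 < d := by
    have : 0 < finrank ℚ K := finrank_pos
    omega
  intro ψ
  obtain ⟨i, hi, rfl⟩ := s_tor K ℂ g (by rw [hg, hd]) φ ψ
  rw [hd] at hi
  rw [conj_eq g d hd hg]
  have h1 : cp (cp φ (g ^ i)) (g ^ d) = cp φ (g ^ (i + d)) := by
    rw [cp_mul, ← pow_add]
  rw [h1]
  have e1 := mem_prog g d φ i
  have e2 := mem_prog g d φ (i + d)
  rw [hg] at e1 e2
  rw [e2]
  refine e1.trans ?_
  constructor
  · rintro ⟨m, hm, h⟩ ⟨m', hm', h'⟩
    have h2 := Nat.ModEq.eq_of_lt_of_lt h hi (by omega)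
    subst h2
    have h3 := Nat.ModEq.eq_of_lt_of_lt h' (by omega) (by omega)
    omega
  · intro h
    by_contra hno
    push Not at hno
    have h2 : d ≤ i := by
      by_contra h3
      exact hno i (by omega) rfl
    apply h
    refine ⟨i - d, by omega, ?_⟩
    have h4 : i + d = (i - d) + 2 * d := by omega
    rw [h4]
    exact Nat.add_modEq_right

theorem s_cm : S_CM := fun _ _ _ _ g d hd hg ↦
  ⟨fun φ ↦ conj_eq g d hd hg φ, fun φ ↦ prog_cm g d hd hg φ⟩

end cm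

section comb

theorem comb2 : ∀ b0 : Bool, ∃ a c : Fin 2, Nat.Coprime a.val 2 ∧ ∀ i : Fin 2,
    (![b0, !b0] i = true ↔ ∃ m : Fin 1, i.val = (c.val + a.val * m.val) % 2) := by decide

theorem comb4 : ∀ b0 b1 : Bool, ∃ a c : Fin 4, Nat.Coprime a.val 4 ∧ ∀ i : Fin 4,
    (![b0, b1, !b0, !b1] i = true ↔ ∃ m : Fin 2, i.val = (c.val + a.val * m.val) % 4) := by
  decide

theorem comb6 : ∀ b0 b1 b2 : Bool, ¬ (b0 = b2 ∧ b0 = !b1) →
    ∃ a c : Fin 6, Nat.Coprime a.val 6 ∧ ∀ i : Fin 6,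
    (![b0, b1, b2, !b0, !b1, !b2] i = true ↔
      ∃ m : Fin 3, i.val = (c.val + a.val * m.val) % 6) := by
  decide

theorem comb8 : ∀ b0 b1 b2 b3 : Bool,
    ∃ a c : Fin 8, Nat.Coprime a.val 8 ∧ ∀ i : Fin 8,
    (![b0, b1, b2, b3, !b0, !b1, !b2, !b3] i = true ↔
      ∃ m : Fin 4, i.val = (c.val + a.val * m.val) % 8) := by
  decide

end comb

section prim

variable {K : Type} [Field K] [NumberField K]

/-- The translation of the combinatorial description. -/
theorem prog_of (g : K ≃ₐ[ℚ] K) (d : ℕ) (hd : finrank ℚ K = 2 * d) (hg : orderOf g = 2 * d)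
    (S : Set (K →+* ℂ)) (φ : K →+* ℂ) (a c : ℕ) (ha : Nat.Coprime a (2 * d))
    (h : ∀ i < 2 * d, (cp φ (g ^ i) ∈ S ↔ ∃ m < d, i = (c + a * m) % (2 * d))) :
    ∃ (a : ℕ) (φ : K →+* ℂ), orderOf (g ^ a) = 2 * d ∧ S = Prog d (g ^ a) φ := by
  have hd0 : 0 < 2 * d := by
    have : 0 < finrank ℚ K := finrank_pos
    omega
  refine ⟨a, cp φ (g ^ c), ?_, ?_⟩
  · rw [orderOf_pow, hg, Nat.gcd_comm, ha, Nat.div_one]
  · ext ψ
    obtain ⟨i, hi, rfl⟩ := s_tor K ℂ g (by rw [hg, hd]) φ ψ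
    rw [hd] at hi
    refine (h i hi).trans ?_
    constructor
    · rintro ⟨m, hm, him⟩
      refine ⟨m, hm, ?_⟩
      show cp φ (g ^ i) = cp (cp φ (g ^ c)) ((g ^ a) ^ m)
      rw [cp_mul, ← pow_mul, ← pow_add, cp_pow_eq, hg]
      show i % (2 * d) = (c + a * m) % (2 * d)
      rw [← him, Nat.mod_eq_of_lt hi]
    · rintro ⟨m, hm, him⟩
      refine ⟨m, hm, ?_⟩
      have h1 : cp φ (g ^ i) = cp φ (g ^ (c + a * m)) := by
        rw [pow_add, pow_mul, ← cp_mul]
        exact him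
      rw [cp_pow_eq, hg] at h1
      have h2 : i % (2 * d) = (c + a * m) % (2 * d) := h1
      rw [← h2, Nat.mod_eq_of_lt hi]

theorem s_prim : S_PRIM := by
  classical
  intro K _ _ _ g d hd hg hd4 S hS hP
  obtain ⟨φ⟩ : Nonempty (K →+* ℂ) := inferInstance
  have hd0 : 0 < d := by
    have : 0 < finrank ℚ K := finrank_pos
    omega
  set X : ℕ → Prop := fun i ↦ cp φ (g ^ i) ∈ S with hX
  have hXd : ∀ i, X (i + d) ↔ ¬ X i := by
    intro i
    have h1 := hS (cp φ (g ^ i))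
    rw [conj_eq g d hd hg, cp_mul, ← pow_add] at h1
    show cp φ (g ^ (i + d)) ∈ S ↔ ¬ cp φ (g ^ i) ∈ S
    rw [h1, not_not]
  rcases (show d = 1 ∨ d = 2 ∨ d = 3 ∨ d = 4 by omega) with rfl | rfl | rfl | rfl
  · obtain ⟨a, c, hac, h⟩ := comb2 (decide (X 0))
    refine prog_of g 1 hd hg S φ a c hac ?_
    intro i hi
    have hval : (![decide (X 0), !decide (X 0)] (⟨i, hi⟩ : Fin 2) = true ↔ X i) := by
      have k0 := hXd 0
      interval_cases i <;> simp [k0]
    rw [show (cp φ (g ^ i) ∈ S) = X i from rfl, ← hval, h ⟨i, hi⟩]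
    exact ⟨fun ⟨m, hm⟩ ↦ ⟨m, m.2, hm⟩, fun ⟨m, hm, hm'⟩ ↦ ⟨⟨m, hm⟩, hm'⟩⟩
  · obtain ⟨a, c, hac, h⟩ := comb4 (decide (X 0)) (decide (X 1))
    refine prog_of g 2 hd hg S φ a c hac ?_
    intro i hi
    have hval : (![decide (X 0), decide (X 1), !decide (X 0), !decide (X 1)]
        (⟨i, hi⟩ : Fin 4) = true ↔ X i) := by
      have k0 := hXd 0
      have k1 := hXd 1
      interval_cases i <;> simp [k0, k1]
    rw [show (cp φ (g ^ i) ∈ S) = X i from rfl, ← hval, h ⟨i, hi⟩]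
    exact ⟨fun ⟨m, hm⟩ ↦ ⟨m, m.2, hm⟩, fun ⟨m, hm, hm'⟩ ↦ ⟨⟨m, hm⟩, hm'⟩⟩
  · have hnp : ¬ (decide (X 0) = decide (X 2) ∧ decide (X 0) = !decide (X 1)) := by
      rintro ⟨h1, h2⟩
      have e1 : X 0 ↔ X 2 := by simpa using h1
      have e2 : X 0 ↔ ¬ X 1 := by
        by_cases hx0 : X 0 <;> by_cases hx1 : X 1 <;> simp_all
      have k0 := hXd 0
      have k1 := hXd 1
      have k2 := hXd 2
      have hper : ∀ i, X (i + 6) ↔ X i := by
        intro i
        have h3 := hXd (i + 3)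
        have h4 := hXd i
        have h5 : i + 3 + 3 = i + 6 := by ring
        rw [h5] at h3
        tauto
      have hall : ∀ i, X i → X (i + 2) := by
        have h6 : ∀ i < 6, X i → X (i + 2) := by
          intro i hi
          have p0 := hper 0
          have p1 := hper 1
          interval_cases i <;> simp only [zero_add, Nat.reduceAdd] at * <;> tauto
        intro i
        induction i using Nat.strong_induction_on with
        | _ i ih =>
          by_cases hi : i < 6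
          · exact h6 i hi
          · intro hx
            have e3 : i = (i - 6) + 6 := by omega
            rw [e3, hper] at hx
            have h7 := ih (i - 6) (by omega) hx
            have e4 : i + 2 = (i - 6 + 2) + 6 := by omega
            rw [e4, hper]
            exact h7
      have h8 := hP (g ^ 2) (by
        intro ψ hψ
        obtain ⟨i, hi, rfl⟩ := s_tor K ℂ g (by rw [hg, hd]) φ ψ
        have h9 := hall i hψ
        have h10 : (cp φ (g ^ i)).comp ((g ^ 2 : K ≃ₐ[ℚ] K) : K →+* K) = cp φ (g ^ (i + 2)) := by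
          rw [pow_add]
          rfl
        have h11 : cp φ (g ^ (i + 2)) ∈ S := h9
        rw [← h10] at h11
        exact h11)
      have h12 := orderOf_dvd_of_pow_eq_one h8
      rw [hg] at h12
      have := Nat.le_of_dvd (by norm_num) h12
      omega
    obtain ⟨a, c, hac, h⟩ := comb6 (decide (X 0)) (decide (X 1)) (decide (X 2)) hnp
    refine prog_of g 3 hd hg S φ a c hac ?_
    intro i hi
    have hval : (![decide (X 0), decide (X 1), decide (X 2), !decide (X 0), !decide (X 1),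
        !decide (X 2)] (⟨i, hi⟩ : Fin 6) = true ↔ X i) := by
      have k0 := hXd 0
      have k1 := hXd 1
      have k2 := hXd 2
      interval_cases i <;> simp [k0, k1, k2]
    rw [show (cp φ (g ^ i) ∈ S) = X i from rfl, ← hval, h ⟨i, hi⟩]
    exact ⟨fun ⟨m, hm⟩ ↦ ⟨m, m.2, hm⟩, fun ⟨m, hm, hm'⟩ ↦ ⟨⟨m, hm⟩, hm'⟩⟩
  · obtain ⟨a, c, hac, h⟩ := comb8 (decide (X 0)) (decide (X 1)) (decide (X 2)) (decide (X 3))
    refine prog_of g 4 hd hg S φ a c hac ?_
    intro i hi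
    have hval : (![decide (X 0), decide (X 1), decide (X 2), decide (X 3), !decide (X 0),
        !decide (X 1), !decide (X 2), !decide (X 3)] (⟨i, hi⟩ : Fin 8) = true ↔ X i) := by
      have k0 := hXd 0
      have k1 := hXd 1
      have k2 := hXd 2
      have k3 := hXd 3
      interval_cases i <;> simp [k0, k1, k2, k3]
    rw [show (cp φ (g ^ i) ∈ S) = X i from rfl, ← hval, h ⟨i, hi⟩]
    exact ⟨fun ⟨m, hm⟩ ↦ ⟨m, m.2, hm⟩, fun ⟨m, hm, hm'⟩ ↦ ⟨⟨m, hm⟩, hm'⟩⟩

end prim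

end Pool.Agent.Helper16.SB
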