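import Pool.Agent.Helper38.SC.Defs

/-!
# Project SB (MP_fc6b1e_nt): definitions
-/

set_option autoImplicit false

namespace Pool.Agent.Helper16.SB

open Pool.Agent.Helper38.SC (Prog Primitive)

/-- `K/ℚ` is cyclic of degree `2 d`, with the generator `g` of its Galois group. The set `S` of embeddings of `K` is
`{φ, φ g', …, φ g'^(d-1)}` for a generator `g'` of the Galois group; or it is any set, if `d = 2` or `d = 4`; or `d = 3` and
it is primitive, that is, not stable under a non-trivial automorphism of `K`. -/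
def Adm {K : Type} [Field K] [CharZero K] (d : ℕ) (g : K ≃ₐ[ℚ] K) (S : Set (K →+* ℂ)) : Prop :=
  (∃ (a : ℕ) (φ : K →+* ℂ), orderOf (g ^ a) = 2 * d ∧ S = Prog d (g ^ a) φ) ∨ d = 2 ∨ d = 4 ∨
    (d = 3 ∧ Primitive S)

end Pool.Agent.Helper16.SB
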