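import Pool.Agent.Helper16.SB.Defs
import Pool.Agent.Helper38.SD.Stmt

/-!
# Project SB (MP_fc6b1e_nt): definitions, second part
-/

set_option autoImplicit false

namespace Pool.Agent.Helper16.SB

open NumberField Pool.Agent.Helper51.SigLeo
open Pool.Agent.Helper38.SDS (GoodFor)
open Pool.Agent.Helper38.FD (Chr)
open Pool.Agent.Helper38.TH (IsTower Hat)

/-- All the CM types which satisfy `Adm` are good for `χ`; and for every `ℤ_p`-extension `η'` of `K` they are all good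
for `χ ξ'`, for all but finitely many characters `ξ'` of finite order of `η'`. -/
def AllGood {p : ℕ} [Fact p.Prime] {K : Type} [Field K] [CharZero K] (d : ℕ) (g : K ≃ₐ[ℚ] K)
    (ιinf : AlgebraicClosure K →+* ℂ) (ιp : AlgebraicClosure K →+* ℂ_[p])
    (Lg : IwasawaLog p ℂ_[p]) (χ : Chr K (AlgebraicClosure K) ℂ_[p]) : Prop :=
  (∀ S : Set (K →+* ℂ), IsCMType S → Adm d g S → GoodFor ιinf ιp Lg S χ) ∧
    ∀ η' : ℕ → Chr K (AlgebraicClosure K) ℂ_[p], IsTower η' →
      {ξ' | ξ' ∈ Hat η' ∧ ∃ S : Set (K →+* ℂ), IsCMType S ∧ Adm d g S ∧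
        ¬ GoodFor ιinf ιp Lg S (χ * ξ')}.Finite

end Pool.Agent.Helper16.SB
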