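import Pool.Agent.Helper16.SB.Gen
import Pool.Agent.Helper16.SB.CM
import Pool.Agent.Helper38.SD.StmtEq

/-!
# Project SB (MP_fc6b1e_nt): the final theorem on symmetric characters of cyclic fields
-/

set_option autoImplicit false

namespace Pool.Agent.Helper16.SB

open NumberField Module TensorProduct
open Pool.Agent.Helper51.SigLeo Pool.Agent.Helper51.RP
open Pool.Agent.Helper16.SD (kd chiPart SplitP NC)
open Pool.Agent.Helper42.RD (TSet)
open Pool.Agent.Helper38.FD (Chr CutsOut LeopoldtFor)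
open Pool.Agent.Helper38.FW (InDec)
open Pool.Agent.Helper38.TH (IsTower Hat NoSplit dec_finite)
open Pool.Agent.Helper38.SD (IsCyclo FinOrd M_FUN A_EQV placeClosed_of_split finOrd_field
  leopoldt_iff Gen NotCM C_RANKG C_IFF c_rankg gen_of finOrd_mul finOrd_hat goodFor_of
  leopoldt_of_good main_sd c_half)
open Pool.Agent.Helper38.SC (ConjBy Sym Prog Primitive)

section real

/-- The maximal real subfield. -/
theorem exists_real (K : Type) [Field K] [NumberField K] [IsTotallyComplex K] (g : K ≃ₐ[ℚ] K)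
    (d : ℕ) (hd : finrank ℚ K = 2 * d) (hg : orderOf g = 2 * d) :
    ∃ (F : Type) (_ : Field F) (_ : NumberField F) (_ : IsTotallyReal F) (_ : Algebra F K),
      finrank F K = 2 ∧ finrank ℚ F = d := by
  have hd0 : 0 < d := by
    have : 0 < finrank ℚ K := finrank_pos
    omega
  set H : Subgroup (K ≃ₐ[ℚ] K) := Subgroup.zpowers (g ^ d) with hH
  have hcard : Nat.card H = 2 := by
    rw [hH, Nat.card_zpowers, orderOf_pow, hg, Nat.gcd_eq_right (Dvd.intro_left 2 rfl)]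
    exact Nat.mul_div_cancel _ hd0
  have h2 : finrank (IntermediateField.fixedField H) K = 2 := by
    rw [IntermediateField.finrank_fixedField_eq_card, hcard]
  have hnf : NumberField (IntermediateField.fixedField H) := inferInstance
  have hreal : IsTotallyReal (IntermediateField.fixedField H) := by
    constructor
    intro v
    rw [← InfinitePlace.mk_embedding v, InfinitePlace.isReal_mk_iff]
    set φ : IntermediateField.fixedField H →+* ℂ := v.embedding with hφ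
    obtain ⟨ψ, hψ⟩ : ∃ ψ : K →+* ℂ, ψ.comp (algebraMap (IntermediateField.fixedField H) K) = φ := by
      letI : Algebra (IntermediateField.fixedField H) ℂ := φ.toAlgebra
      let ρ : K →ₐ[IntermediateField.fixedField H] ℂ :=
        IsAlgClosed.lift (R := IntermediateField.fixedField H) (S := K) (M := ℂ)
      refine ⟨ρ.toRingHom, ?_⟩
      ext x
      exact ρ.commutes x
    ext x
    show starRingEnd ℂ (φ x) = φ x
    have h3 : φ x = ψ (x : K) := by
      rw [← hψ]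
      rfl
    have h4 := RingHom.congr_fun (conj_eq g d hd hg ψ) (x : K)
    have h5 : starRingEnd ℂ (ψ (x : K)) = ψ ((g ^ d) (x : K)) := h4
    have h6 : (g ^ d) (x : K) = x := by
      have h7 := x.2
      rw [IntermediateField.mem_fixedField_iff] at h7
      exact h7 (g ^ d) (Subgroup.mem_zpowers _)
    rw [h3, h5, h6]
  refine ⟨IntermediateField.fixedField H, inferInstance, hnf, hreal, inferInstance, h2, ?_⟩
  have h8 := Module.finrank_mul_finrank ℚ (IntermediateField.fixedField H) K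
  rw [h2, hd] at h8
  omega

end real

section

variable {p : ℕ} [Fact p.Prime] {K : Type} [Field K] [NumberField K]

/-- A character which is not invariant under complex conjugation: its field is not a CM field. -/
theorem notCM_of_nc (hI : C_IFF) (F₀ : Type) [Field F₀] [NumberField F₀] [IsTotallyReal F₀]
    [IsTotallyComplex K] [Algebra F₀ K] (h2 : finrank F₀ K = 2)
    (ιinf : AlgebraicClosure K →+* ℂ) (κ : Chr K (AlgebraicClosure K) ℂ_[p])
    (h : NC ιinf κ) : NotCM κ := by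
  intro H _ hcut hCM
  obtain ⟨g, g', hgg, hne⟩ := h
  have h1 := (hI p F₀ K h2 κ H hcut).1 hCM (g⁻¹ * g') ιinf
    (ιinf.comp (g : AlgebraicClosure K →+* AlgebraicClosure K)) (by
      intro x y hxy
      have h3 : ιinf x = starRingEnd ℂ (ιinf y) := by
        rw [hxy, Complex.conj_conj]
      have h4 := hgg y x h3
      show ιinf (g y) = starRingEnd ℂ (ιinf (g ((g⁻¹ * g') x)))
      have h5 : g ((g⁻¹ * g') x) = g' x := by
        show g (g⁻¹ (g' x)) = g' x
        exact g.apply_symm_apply _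
      rw [h5, h4, Complex.conj_conj])
  rw [map_mul, map_inv, inv_mul_eq_one] at h1
  exact hne h1.symm

/-- The invariance for `κ` itself. -/
theorem step (hs : SplitP p K) (ιinf : AlgebraicClosure K →+* ℂ)
    (ιp : AlgebraicClosure K →+* ℂ_[p]) (Lg : IwasawaLog p ℂ_[p])
    (κ : Chr K (AlgebraicClosure K) ℂ_[p])
    (γ : AlgebraicClosure K ≃+* AlgebraicClosure K) (τ : K ≃+* K)
    (hγ : ∀ x : K, γ (algebraMap K (AlgebraicClosure K) x) =
      algebraMap K (AlgebraicClosure K) (τ x))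
    (s : ℂ_[p] ≃ₐ[ℚ_[p]] ℂ_[p])
    (hsym : ConjBy γ κ ((Units.map (s : ℂ_[p] →* ℂ_[p])).comp κ))
    (S : Set (K →+* ℂ)) (hS : LeopoldtFor ιinf ιp Lg S κ) :
    LeopoldtFor ιinf ιp Lg {t | t.comp (τ : K →+* K) ∈ S} κ := by
  have h1 := transport ιinf ιp Lg S γ τ hγ κ _ hsym hS
  have h2 := Pool.Agent.Helper8.TH.d_inv p K ιinf ιp Lg _ (placeClosed_of_split hs _) _ h1 s.symm
  have h3 : (Units.map (s.symm : ℂ_[p] →* ℂ_[p])).comp
      ((Units.map (s : ℂ_[p] →* ℂ_[p])).comp κ) = κ := by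
    refine MonoidHom.ext fun g ↦ ?_
    apply Units.ext
    show s.symm (s (κ g : ℂ_[p]ˣ)) = ((κ g : ℂ_[p]ˣ) : ℂ_[p])
    rw [s.symm_apply_apply]
  rw [h3] at h2
  exact h2

/-- `S` consists of `φ, φ g', …, φ g'^(d-1)`, where `g'` is a power of `g` of order `2 d`. -/
def Cons (d : ℕ) (g : K ≃ₐ[ℚ] K) (S : Set (K →+* ℂ)) : Prop :=
  ∃ (a : ℕ) (φ : K →+* ℂ), orderOf (g ^ a) = 2 * d ∧ S = Prog d (g ^ a) φ

/-- **Theorem B, first part.** -/
theorem sym_almost (hp2 : p ≠ 2) [IsTotallyComplex K] (hs : SplitP p K)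
    (ιinf : AlgebraicClosure K →+* ℂ) (ιp : AlgebraicClosure K →+* ℂ_[p])
    (Lg : IwasawaLog p ℂ_[p]) (g : K ≃ₐ[ℚ] K) (d : ℕ) (hd : finrank ℚ K = 2 * d)
    (hg : orderOf g = 2 * d)
    (κ : Chr K (AlgebraicClosure K) ℂ_[p]) (hκ : FinOrd κ) (hG : Gen d ιinf κ)
    (η : ℕ → Chr K (AlgebraicClosure K) ℂ_[p]) (hη : IsCyclo η) (hsym : Sym (Hat η) g κ)
    (S : Set (K →+* ℂ)) (hS : Cons d g S) :
    {ξ | ξ ∈ Hat η ∧ ¬ LeopoldtFor ιinf ιp Lg S (κ * ξ)}.Finite := by
  classical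
  have hd0 : 0 < d := by
    have : 0 < finrank ℚ K := finrank_pos
    omega
  have hF : M_FUN := Pool.Agent.Helper80.SD.m_fun
  have hE : A_EQV := Pool.Agent.Helper70.SD.a_eqv
  obtain ⟨F₀, _, _, _, _, h2, hF₀⟩ := exists_real K g d hd hg
  have hR : C_RANKG := c_rankg Pool.Agent.Helper16.SD.s_rankn c_half
    Pool.Agent.Helper30.SD.c_iff hF hE
  obtain ⟨om, u, hC⟩ := (Pool.Agent.Helper80.SD.a_cyc Pool.Agent.Helper83.SD.a_tei
    Pool.Agent.Helper80.SD.a_surj) p hp2 K hs η hη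
  have hns : NoSplit η := Pool.Agent.Helper69.SD.a_ns p K η om u hC
  obtain ⟨N, hN, hκN⟩ : ∃ N : ℕ, 0 < N ∧ κ ^ N = 1 := by
    obtain ⟨H, hH, hc⟩ := hκ
    exact ⟨finrank K H, finrank_pos, Pool.Agent.Helper57.TH.chr_pow_finrank hc⟩
  have hG' : Gen (finrank ℚ F₀) ιinf κ := by
    rw [hF₀]
    exact hG
  have hgen := (gen_of Pool.Agent.Helper87.SD.N_MOV.t
    (Pool.Agent.Helper39.SD.c_ncm Pool.Agent.Helper30.SD.c_iff) F₀ h2 ιinf η om u hC κ hκ hG').1
  obtain ⟨γ, s, ξ', hξ', hγ, hconj⟩ := hsym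
  set τ : K ≃+* K := (g : K ≃+* K) with hτ
  have hγ' : ∀ x : K, γ (algebraMap K (AlgebraicClosure K) x) =
      algebraMap K (AlgebraicClosure K) (τ x) := hγ
  obtain ⟨a, φ, ha, rfl⟩ := hS
  -- the permutation of the embeddings
  set f₁ : (K →+* ℂ) → (K →+* ℂ) := fun φ ↦ φ.comp (τ : K →+* K) with hf₁
  have hf₁' : ∀ (n : ℕ) (ψ : K →+* ℂ), f₁^[n] ψ = cp ψ (g ^ n) := by
    intro n
    induction n with
    | zero => intro ψ; rfl
    | succ n ih =>
      intro ψ
      rw [Function.iterate_succ_apply, ih]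
      show cp (cp ψ g) (g ^ n) = cp ψ (g ^ (n + 1))
      rw [cp_mul, pow_succ']
  set f : (K →+* ℂ) → (K →+* ℂ) := fun ψ ↦ cp ψ (g ^ a) with hf
  have hfn : ∀ (n : ℕ) (ψ : K →+* ℂ), f^[n] ψ = cp ψ ((g ^ a) ^ n) := by
    intro n
    induction n with
    | zero => intro ψ; rfl
    | succ n ih =>
      intro ψ
      rw [Function.iterate_succ_apply, ih]
      show cp (cp ψ (g ^ a)) ((g ^ a) ^ n) = cp ψ ((g ^ a) ^ (n + 1))
      rw [cp_mul, pow_succ' (g ^ a) n]
  have huniv : Gd ιinf ιp Lg κ η Set.univ := by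
    have h3 := (main_sd p F₀ K h2 ιinf ιp Lg κ hκ hG').2.1 hp2 hs η hη
    refine h3.subset ?_
    rintro ξ ⟨hξ, hb⟩
    refine ⟨hξ, fun hr ↦ hb ?_⟩
    obtain ⟨F, hFn, hFg, hFc⟩ := finOrd_field (finOrd_mul hκ (finOrd_hat hη.tower hξ))
    have hFχ : ∀ g, (∀ x ∈ F, g x = x) → (κ * ξ) g = 1 := fun g hg ↦ (hFc g).2 hg
    rw [leopoldt_iff hF ιinf ιp Lg _ F (κ * ξ) hFχ]
    obtain ⟨e, he⟩ := hE p K ιinf ιp
    rw [he, Set.image_univ, e.range_eq_univ]
    have h4 := hr.bd₂ F hFc Finset.univ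
    have h5 : (Finset.univ : Finset (K →+* ℂ_[p])).card = 2 * d := by
      rw [Finset.card_univ, NumberField.Embeddings.card K ℂ_[p], hd]
    rw [hF₀, h5, Nat.sub_self, zero_pow (by norm_num), Finset.coe_univ] at h4
    have h6 : 3 * d - 2 * d = d := by omega
    rw [h6] at h4
    rcases Nat.eq_zero_or_pos (kd Lg F (κ * ξ) Set.univ) with h7 | h7
    · exact h7
    · exact absurd h4 (by have := Nat.mul_pos hd0 h7; omega)
  have hres := gd_interval hF hE hs ιinf ιp Lg d hd0 κ hN hκN η hη hns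
    (fun ξ hξ ↦ finOrd_mul hκ (finOrd_hat hη.tower hξ))
    (fun ξ hξ F _ _ hFχ ↦ by
      have h3 := (hR p F₀ K h2 ιinf ιp Lg F _ hFχ (hgen ξ hξ)).2.1
      rw [hF₀] at h3
      exact h3)
    huniv f (by
      funext ψ
      rw [hfn, ← ha, pow_orderOf_eq_one]
      rfl)
    (by
      intro T hT
      have h3 := gd_iterate hs ιinf ιp Lg κ hN hκN η hη hns γ τ hγ' s ξ' hξ' hconj T hT
        ((2 * d - 1) * a)
      have h4 : {t : K →+* ℂ | f₁^[(2 * d - 1) * a] t ∈ T} = f '' T := by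
        ext t
        constructor
        · intro ht
          refine ⟨f₁^[(2 * d - 1) * a] t, ht, ?_⟩
          show cp (f₁^[(2 * d - 1) * a] t) (g ^ a) = t
          rw [hf₁', cp_mul, ← pow_add]
          have h5 : (2 * d - 1) * a + a = (2 * d) * a := by
            rw [← Nat.succ_mul, Nat.succ_eq_add_one, Nat.sub_add_cancel (by omega)]
          rw [h5, ← hg, pow_mul, pow_orderOf_eq_one, one_pow]
          rfl
        · rintro ⟨ψ, hψ, rfl⟩
          show f₁^[(2 * d - 1) * a] (cp ψ (g ^ a)) ∈ T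
          rw [hf₁', cp_mul, ← pow_add]
          have h5 : a + (2 * d - 1) * a = (2 * d) * a := by
            rw [add_comm, ← Nat.succ_mul, Nat.succ_eq_add_one, Nat.sub_add_cancel (by omega)]
          rw [h5, ← hg, pow_mul, pow_orderOf_eq_one, one_pow]
          exact hψ
      rw [← h4]
      exact h3)
    φ
    (by
      intro ψ
      obtain ⟨i, hi, hψ⟩ := s_tor K ℂ (g ^ a) (by rw [ha, hd]) φ ψ
      rw [hd] at hi
      refine ⟨i, hi, ?_⟩
      rw [hfn]
      exact hψ)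
  have h9 : Iv f φ d = Prog d (g ^ a) φ := by
    ext ψ
    constructor
    · rintro ⟨i, hi, rfl⟩
      refine ⟨i, hi, ?_⟩
      rw [hfn]
    · rintro ⟨i, hi, rfl⟩
      refine ⟨i, hi, ?_⟩
      rw [hfn]
  rw [h9] at hres
  exact hres

/-- **Theorem B, second part** (degree `4`, `κ` itself, every CM type). -/
theorem sym_four [IsTotallyComplex K] (hs : SplitP p K)
    (ιinf : AlgebraicClosure K →+* ℂ) (ιp : AlgebraicClosure K →+* ℂ_[p])
    (Lg : IwasawaLog p ℂ_[p]) (g : K ≃ₐ[ℚ] K) (hd : finrank ℚ K = 2 * 2)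
    (hg : orderOf g = 2 * 2)
    (κ : Chr K (AlgebraicClosure K) ℂ_[p]) (hκ : FinOrd κ) (hG : Gen 2 ιinf κ)
    (hsym : Sym {1} g κ) (S : Set (K →+* ℂ)) (hS : IsCMType S) :
    LeopoldtFor ιinf ιp Lg S κ := by
  obtain ⟨F₀, _, _, _, _, h2, hF₀⟩ := exists_real K g 2 hd hg
  have hN : NotCM κ := by
    rcases hG with h | ⟨-, h⟩
    · exact notCM_of_nc Pool.Agent.Helper30.SD.c_iff F₀ h2 ιinf κ h
    · exact h
  obtain ⟨γ, s, ξ', hξ', hγ, hconj⟩ := hsym
  rw [Set.mem_singleton_iff] at hξ'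
  subst hξ'
  have hone : (Units.map (s : ℂ_[p] →* ℂ_[p])).comp κ * 1 =
      (Units.map (s : ℂ_[p] →* ℂ_[p])).comp κ := MonoidHom.ext fun h ↦ mul_one _
  rw [hone] at hconj
  set τ : K ≃+* K := (g : K ≃+* K) with hτ
  have hγ' : ∀ x : K, γ (algebraMap K (AlgebraicClosure K) x) =
      algebraMap K (AlgebraicClosure K) (τ x) := hγ
  have hst := step hs ιinf ιp Lg κ γ τ hγ' s hconj
  set S' : Set (K →+* ℂ) := {t | t.comp (τ : K →+* K) ∈ S} with hS'
  have hS'cm : IsCMType S' := by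
    intro φ
    show φ.comp (τ : K →+* K) ∈ S ↔ (ComplexEmbedding.conjugate φ).comp (τ : K →+* K) ∉ S
    exact hS (φ.comp (τ : K →+* K))
  obtain ⟨s₀⟩ : Nonempty (K →+* ℂ) := inferInstance
  have hsq : ∀ φ : K →+* ℂ, (φ.comp (τ : K →+* K)).comp (τ : K →+* K) =
      ComplexEmbedding.conjugate φ := by
    intro φ
    rw [conj_eq g 2 hd hg φ]
    show cp (cp φ g) g = cp φ (g ^ 2)
    rw [cp_mul, pow_two]
  have key : ∀ φ : K →+* ℂ, (φ.comp (τ : K →+* K)).comp (τ : K →+* K) ∈ S ↔ φ ∉ S := by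
    intro φ
    rw [hsq φ, hS φ, not_not]
  have hne : S' ≠ S := by
    intro h
    have h1 : ∀ φ : K →+* ℂ, φ.comp (τ : K →+* K) ∈ S ↔ φ ∈ S := by
      intro φ
      have h3 : φ ∈ S' ↔ φ ∈ S := by rw [h]
      exact h3
    have h2 := key s₀
    rw [h1, h1] at h2
    tauto
  have hne' : S' ≠ Sᶜ := by
    intro h
    have h1 : ∀ φ : K →+* ℂ, φ.comp (τ : K →+* K) ∈ S ↔ φ ∉ S := by
      intro φ
      have h2 : φ ∈ S' ↔ φ ∈ Sᶜ := by rw [h]
      exact h2
    have h2 := key s₀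
    rw [h1, h1, not_not] at h2
    tauto
  rcases c_half p F₀ K hF₀ h2 ιinf ιp Lg κ hκ hN S S' hS hS'cm hne hne' with h | h
  · exact h
  · have h3 := hst _ (hst _ (hst _ h))
    have h4 : {t : K →+* ℂ | t.comp (τ : K →+* K) ∈ {t : K →+* ℂ | t.comp (τ : K →+* K) ∈
        {t : K →+* ℂ | t.comp (τ : K →+* K) ∈ S'}}} = S := by
      ext t
      show (((t.comp (τ : K →+* K)).comp (τ : K →+* K)).comp (τ : K →+* K)).comp
        (τ : K →+* K) ∈ S ↔ t ∈ S
      rw [key, hsq, hS t]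
    rw [h4] at h3
    exact h3

end

end Pool.Agent.Helper16.SB
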