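import Pool.Agent.Helper17.SL.MainA
import Pool.Agent.Helper8.TH.DINV
import Pool.Agent.Helper38.FD.Defs

/-!
# The `Σ`-Leopoldt conjecture over cyclic quartic fields (MP_fc6b1e_nt)

If `K/ℚ` is cyclic of degree `4`, and the character `χ` of `Gal(H/K)` is conjugate over `ℚ_p` to its transform under an
automorphism of `H` above a generator of `Gal(K/ℚ)`, then the theorem on pairs of CM types (`mainA`) implies the `Σ`-Leopoldt
statement for all the `p`-ordinary CM types.
-/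

set_option autoImplicit false

namespace Pool.Agent.Helper16.SB

open NumberField Module TensorProduct
open Pool.Agent.Helper51.SigLeo Pool.Agent.Helper51.RP Pool.Agent.Helper42.RD
open Pool.Agent.Helper38.FD (IsOrdinary)
open Pool.Agent.Helper8.TH (Th th_tmul th_smul th_end th_hom th_inv th_chi extHom_comb exists_lift)

section sigma

variable {p : ℕ} [Fact p.Prime] {K H Ω : Type} [Field K] [NumberField K] [Field H] [NumberField H]
  [Algebra K H] [Field Ω] [IsAlgClosed Ω]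

/-- Invariance under automorphisms of `ℂ_p` over `ℚ_p`. -/
theorem inj_conj (ιinf : Ω →+* ℂ) (ιp : Ω →+* ℂ_[p]) (S : Set (K →+* ℂ))
    (hT : PlaceClosed (TSet ιinf ιp S)) (Lg : IwasawaLog p ℂ_[p]) (χ χ' : (H ≃ₐ[K] H) →* ℂ_[p]ˣ)
    (σ : ℂ_[p] ≃ₐ[ℚ_[p]] ℂ_[p]) (hσ : ∀ h, ((χ' h : ℂ_[p]ˣ) : ℂ_[p]) = σ (χ h))
    (hinj : InjectiveOn (finrank K H) χ unitsHom (logSigma ιinf ιp S Lg)) :
    InjectiveOn (finrank K H) χ' unitsHom (logSigma ιinf ιp S Lg) := by
  have : FiniteDimensional K H := Module.Finite.of_restrictScalars_finite ℚ K H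
  have hne : Nonempty (AlgebraicClosure ℚ →+* ℂ_[p]) :=
    Pool.Agent.Helper50.RS.nonempty_hom ℚ ℂ_[p]
  let sr : ℂ_[p] →+* ℂ_[p] := (σ : ℂ_[p] →+* ℂ_[p])
  let si : ℂ_[p] →+* ℂ_[p] := (σ.symm : ℂ_[p] →+* ℂ_[p])
  have hsi : ∀ x, si (sr x) = x := fun x => σ.symm_apply_apply x
  have his : ∀ x, sr (si x) = x := fun x => σ.apply_symm_apply x
  intro x hx
  have hconj : Th si (eChi (finrank K H) χ' unitsHom x) =
      eChi (finrank K H) χ unitsHom (Th si x) :=
    th_chi si (finrank K H) _ χ (fun g => by rw [hσ g]; exact hsi _) unitsHom x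
  obtain ⟨n, f, hf1, hf2⟩ := Pool.Agent.Helper94.RP.s_rat p ℂ_[p] hne Lg H
    (above (TSet ιinf ιp S)) (by
      intro τ₁ τ₂ h
      exact hT (τ₁.comp (algebraMap K H)) (τ₂.comp (algebraMap K H))
        (fun y => h (algebraMap K H y)))
  have h1 := hf1 (eChi (finrank K H) χ' unitsHom x) (by
    intro τ hτ
    obtain ⟨σ₀, hσ₀, hτ'⟩ := hτ
    obtain ⟨σ', rfl⟩ := exists_lift ιp σ₀ τ hτ'
    apply hx
    refine ⟨σ', ?_, rfl⟩
    have h2 : σ'.comp (algebraMap K H) = σ₀ := by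
      ext y
      apply ιp.injective
      exact RingHom.congr_fun hτ' y
    rw [h2]
    exact hσ₀)
  have h3 : eChi (finrank K H) χ unitsHom (Th si x) = 0 := by
    apply hinj
    rintro ℓ ⟨σ', hσ', rfl⟩
    have h4 : ιp.comp σ' ∈ (above (TSet ιinf ιp S) : Set (H →+* ℂ_[p])) :=
      ⟨σ'.comp (algebraMap K H), hσ', rfl⟩
    obtain ⟨c, hc⟩ := hf2 _ h4
    rw [extHom_comb n (fun i => ((algebraMap ℚ_[p] ℂ_[p] : ℚ_[p] →+* ℂ_[p]) :
      ℚ_[p] →+ ℂ_[p]).comp (f i)) c (logUnits Lg (ιp.comp σ')) (fun u => by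
        rw [hc u]
        apply Finset.sum_congr rfl
        intro i _
        rw [Algebra.smul_def]
        rfl)]
    apply Finset.sum_eq_zero
    intro i _
    rw [← hconj, th_hom si _ (fun m => σ.symm.commutes (f i m)), h1 i, map_zero, zero_mul]
  have h5 := congrArg (Th sr) hconj
  rw [th_inv si sr his, h3, map_zero] at h5
  exact h5

end sigma

section geo

variable {k K H : Type} [Field k] [Field K] [Field H] [Algebra K H]

/-- The action of the automorphism `g` of `H` on the units. -/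
noncomputable def gU (g : H ≃+* H) : Additive (𝓞 H)ˣ →+ Additive (𝓞 H)ˣ :=
  AddMonoidHom.mk' (fun u ↦ .ofMul (Units.map (RingOfIntegers.mapRingHom (g : H →+* H)) u.toMul))
    fun _ _ ↦ congrArg Additive.ofMul (map_mul _ _ _)

theorem gU_coe (g : H ≃+* H) (u : Additive (𝓞 H)ˣ) :
    (((gU g u).toMul : (𝓞 H)ˣ) : H) = g ((u.toMul : (𝓞 H)ˣ) : H) := rfl

theorem unitsHom_coe (h : H ≃ₐ[K] H) (u : Additive (𝓞 H)ˣ) :
    (((unitsHom h u).toMul : (𝓞 H)ˣ) : H) = h ((u.toMul : (𝓞 H)ˣ) : H) := rfl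

theorem add_units_ext {u v : Additive (𝓞 H)ˣ} (h : ((u.toMul : (𝓞 H)ˣ) : H) = (v.toMul : (𝓞 H)ˣ)) :
    u = v := by
  have h1 : (u.toMul : (𝓞 H)ˣ) = v.toMul := by
    apply Units.ext
    exact RingOfIntegers.ext h
  exact h1

theorem gU_injective (g : H ≃+* H) : Function.Injective (gU g) := by
  intro u v h
  apply add_units_ext
  have h1 := congrArg (fun w : Additive (𝓞 H)ˣ ↦ ((w.toMul : (𝓞 H)ˣ) : H)) h
  simp only [gU_coe] at h1
  exact g.injective h1

theorem gU_symm (g : H ≃+* H) (u : Additive (𝓞 H)ˣ) : gU g.symm (gU g u) = u := by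
  apply add_units_ext
  rw [gU_coe, gU_coe, g.symm_apply_apply]

theorem extEnd_tmul (f : Additive (𝓞 H)ˣ →+ Additive (𝓞 H)ˣ) (c : k) (m : Additive (𝓞 H)ˣ) :
    extEnd f (c ⊗ₜ[ℤ] m) = c ⊗ₜ[ℤ] f m := rfl

theorem extEnd_comp_gen (f f' f'' : Additive (𝓞 H)ˣ →+ Additive (𝓞 H)ˣ)
    (h : ∀ m, f (f' m) = f'' m) (z : k ⊗[ℤ] Additive (𝓞 H)ˣ) :
    extEnd f (extEnd f' z) = extEnd f'' z := by
  induction z using TensorProduct.induction_on with
  | zero => simp
  | tmul x m => rw [extEnd_tmul, extEnd_tmul, extEnd_tmul, h]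
  | add x y hx hy => rw [map_add, map_add, hx, hy, map_add]

theorem extEnd_gU_injective (g : H ≃+* H) {z : k ⊗[ℤ] Additive (𝓞 H)ˣ}
    (h : extEnd (gU g) z = 0) : z = 0 := by
  have h1 : extEnd (gU g.symm) (extEnd (gU g) z) = extEnd (AddMonoidHom.id _) z :=
    extEnd_comp_gen _ _ _ (fun m ↦ gU_symm g m) z
  rw [h, map_zero] at h1
  have h2 : extEnd (AddMonoidHom.id (Additive (𝓞 H)ˣ)) z = z := by
    induction z using TensorProduct.induction_on with
    | zero => simp
    | tmul x m => rfl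
    | add x y hx hy =>
      have h3 : ∀ w : k ⊗[ℤ] Additive (𝓞 H)ˣ,
          extEnd (AddMonoidHom.id (Additive (𝓞 H)ˣ)) w = w := by
        intro w
        induction w using TensorProduct.induction_on with
        | zero => simp
        | tmul x m => rfl
        | add x y hx hy => rw [map_add, hx, hy]
      exact h3 _
  rw [← h2, ← h1]

/-- `g h g⁻¹`, for an automorphism `g` of `H` which maps `K` to `K`. -/
noncomputable def cj (g : H ≃+* H) (τ : K ≃+* K)
    (hg : ∀ x, g (algebraMap K H x) = algebraMap K H (τ x)) (h : H ≃ₐ[K] H) : H ≃ₐ[K] H :=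
  AlgEquiv.ofRingEquiv (f := (g.symm.trans (h : H ≃+* H)).trans g) (by
    intro x
    show g (h (g.symm (algebraMap K H x))) = algebraMap K H x
    have h1 : g.symm (algebraMap K H x) = algebraMap K H (τ.symm x) := by
      rw [g.symm_apply_eq, hg, τ.apply_symm_apply]
    rw [h1, h.commutes, hg, τ.apply_symm_apply])

theorem cj_apply (g : H ≃+* H) (τ : K ≃+* K)
    (hg : ∀ x, g (algebraMap K H x) = algebraMap K H (τ x)) (h : H ≃ₐ[K] H) (x : H) :
    cj g τ hg h (g x) = g (h x) := by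
  show g (h (g.symm (g x))) = g (h x)
  rw [g.symm_apply_apply]

theorem cj_mul (g : H ≃+* H) (τ : K ≃+* K)
    (hg : ∀ x, g (algebraMap K H x) = algebraMap K H (τ x)) (h h' : H ≃ₐ[K] H) :
    cj g τ hg (h * h') = cj g τ hg h * cj g τ hg h' := by
  ext x
  obtain ⟨y, rfl⟩ := g.surjective x
  rw [cj_apply, AlgEquiv.mul_apply, AlgEquiv.mul_apply, cj_apply, cj_apply]

theorem cj_one (g : H ≃+* H) (τ : K ≃+* K)
    (hg : ∀ x, g (algebraMap K H x) = algebraMap K H (τ x)) :
    cj g τ hg (1 : H ≃ₐ[K] H) = 1 := by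
  ext x
  obtain ⟨y, rfl⟩ := g.surjective x
  rw [cj_apply]
  rfl

theorem cj_bijective (g : H ≃+* H) (τ : K ≃+* K)
    (hg : ∀ x, g (algebraMap K H x) = algebraMap K H (τ x)) :
    Function.Bijective (cj g τ hg) := by
  have hg' : ∀ x, g.symm (algebraMap K H x) = algebraMap K H (τ.symm x) := by
    intro x
    rw [g.symm_apply_eq, hg, τ.apply_symm_apply]
  constructor
  · intro h h' e
    ext x
    have h1 := DFunLike.congr_fun e (g x)
    rw [cj_apply, cj_apply] at h1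
    exact g.injective h1
  · intro h
    refine ⟨cj g.symm τ.symm hg' h, ?_⟩
    ext x
    obtain ⟨y, rfl⟩ := g.surjective x
    rw [cj_apply]
    have h1 := cj_apply g.symm τ.symm hg' h (g y)
    rw [g.symm_apply_apply] at h1
    rw [h1, g.apply_symm_apply]

theorem cj_inv (g : H ≃+* H) (τ : K ≃+* K)
    (hg : ∀ x, g (algebraMap K H x) = algebraMap K H (τ x)) (h : H ≃ₐ[K] H) :
    cj g τ hg h⁻¹ = (cj g τ hg h)⁻¹ := by
  rw [eq_inv_iff_mul_eq_one, ← cj_mul, inv_mul_cancel, cj_one]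

/-- `e_χ` and the automorphism `g`. -/
theorem eChi_gU [Finite (H ≃ₐ[K] H)] (g : H ≃+* H) (τ : K ≃+* K)
    (hg : ∀ x, g (algebraMap K H x) = algebraMap K H (τ x)) (n : ℕ)
    (χ χ' : (H ≃ₐ[K] H) →* kˣ) (hχ : ∀ h, χ' (cj g τ hg h) = χ h)
    (x : k ⊗[ℤ] Additive (𝓞 H)ˣ) :
    eChi n χ' unitsHom (extEnd (gU g) x) = extEnd (gU g) (eChi n χ unitsHom x) := by
  have hG : Fintype (H ≃ₐ[K] H) := Fintype.ofFinite _
  unfold eChi
  rw [map_smul, finsum_eq_sum_of_fintype, finsum_eq_sum_of_fintype, map_sum]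
  congr 1
  rw [← (cj_bijective g τ hg).sum_comp]
  apply Finset.sum_congr rfl
  intro h _
  rw [map_smul, ← cj_inv, hχ]
  congr 1
  have e1 : extEnd (unitsHom (cj g τ hg h)) (extEnd (gU g) x) =
      extEnd ((unitsHom (cj g τ hg h)).comp (gU g)) x :=
    extEnd_comp_gen _ _ _ (fun m ↦ rfl) x
  have e2 : extEnd (gU g) (extEnd (unitsHom h) x) =
      extEnd ((unitsHom (cj g τ hg h)).comp (gU g)) x := by
    apply extEnd_comp_gen
    intro m
    apply add_units_ext
    rw [gU_coe, unitsHom_coe, AddMonoidHom.comp_apply, unitsHom_coe, gU_coe, cj_apply]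
  rw [e1, e2]

theorem extHom_gU {p : ℕ} {k : Type} [NormedField k] (g : H ≃+* H) (Lg : IwasawaLog p k)
    (σ : H →+* k) (z : k ⊗[ℤ] Additive (𝓞 H)ˣ) :
    extHom (logUnits Lg σ) (extEnd (gU g) z) =
      extHom (logUnits Lg (σ.comp (g : H →+* H))) z := by
  induction z using TensorProduct.induction_on with
  | zero => simp
  | tmul x m =>
    rw [extEnd_tmul]
    unfold extHom
    rw [LinearMap.liftBaseChange_tmul, LinearMap.liftBaseChange_tmul]
    congr 1
  | add x y hx hy => rw [map_add, map_add, hx, hy, map_add]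

end geo

section quartic

/-- Complex conjugation is the square of a generator of the Galois group of a cyclic quartic field. -/
theorem comp_sq {K : Type} [Field K] [NumberField K] [IsTotallyComplex K] (h4 : finrank ℚ K = 4)
    (τ : K ≃+* K) (hτ : ∃ x, τ (τ x) ≠ x) (s : K →+* ℂ) :
    (s.comp (τ : K →+* K)).comp (τ : K →+* K) = ComplexEmbedding.conjugate s := by
  classical
  have hcard : Fintype.card (K →+* ℂ) = 4 := by
    rw [NumberField.Embeddings.card K ℂ, h4]
  have hcn : ∀ s : K →+* ℂ, ComplexEmbedding.conjugate s ≠ s := by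
    intro s hs
    have h1 : ComplexEmbedding.IsReal s := hs
    exact IsTotallyComplex.complexEmbedding_not_isReal s h1
  set f : (K →+* ℂ) → (K →+* ℂ) := fun s ↦ s.comp (τ : K →+* K) with hf
  have hfi : Function.Injective f := by
    intro s s' h
    ext x
    obtain ⟨y, rfl⟩ := τ.surjective x
    exact RingHom.congr_fun h y
  have hff : ∀ s, f (f s) ≠ s := by
    intro s h
    obtain ⟨x, hx⟩ := hτ
    exact hx (s.injective (RingHom.congr_fun h x))
  have hfs : ∀ s, f s ≠ s := by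
    intro s h
    exact hff s (by rw [h, h])
  have hfc : ∀ s, f (ComplexEmbedding.conjugate s) = ComplexEmbedding.conjugate (f s) := by
    intro s
    rfl
  have hcc : ∀ s : K →+* ℂ, ComplexEmbedding.conjugate (ComplexEmbedding.conjugate s) = s :=
    fun s ↦ ComplexEmbedding.involutive_conjugate K s
  have hfsc : ∀ s, f s ≠ ComplexEmbedding.conjugate s := by
    intro s h
    apply hff s
    rw [h, hfc, h, hcc]
  -- the four embeddings
  have huniv : ({s, ComplexEmbedding.conjugate s, f s, ComplexEmbedding.conjugate (f s)} :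
      Finset (K →+* ℂ)) = Finset.univ := by
    apply Finset.eq_univ_of_card
    rw [hcard]
    have n1 : s ≠ ComplexEmbedding.conjugate s := (hcn s).symm
    have n2 : s ≠ f s := (hfs s).symm
    have n3 : s ≠ ComplexEmbedding.conjugate (f s) := by
      intro h
      apply hfsc s
      rw [← hcc (f s), ← h]
    have n4 : ComplexEmbedding.conjugate s ≠ f s := (hfsc s).symm
    have n5 : ComplexEmbedding.conjugate s ≠ ComplexEmbedding.conjugate (f s) := by
      intro h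
      apply hfs s
      rw [← hcc (f s), ← h, hcc]
    have n6 : f s ≠ ComplexEmbedding.conjugate (f s) := (hcn (f s)).symm
    rw [Finset.card_insert_of_notMem, Finset.card_insert_of_notMem, Finset.card_insert_of_notMem,
      Finset.card_singleton]
    · simpa using n6
    · simp [n4, n5]
    · simp [n1, n2, n3]
  have h1 : f (f s) ∈ ({s, ComplexEmbedding.conjugate s, f s, ComplexEmbedding.conjugate (f s)} :
      Finset (K →+* ℂ)) := by
    rw [huniv]
    exact Finset.mem_univ _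
  simp only [Finset.mem_insert, Finset.mem_singleton] at h1
  rcases h1 with h | h | h | h
  · exact absurd h (hff s)
  · exact h
  · exact absurd h (hfs (f s))
  · exact absurd h (hfsc (f s))

/-- The theorem. -/
theorem all_types (F K H Ω : Type) [Field F] [NumberField F] [Field K] [NumberField K] [Field H]
    [NumberField H] [Algebra F K] [Algebra K H] [IsTotallyReal F] [IsTotallyComplex K]
    [IsGalois K H] [Field Ω] [CharZero Ω] [IsAlgClosed Ω] [Algebra.IsAlgebraic ℚ Ω]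
    (hF : finrank ℚ F = 2) (hK : finrank F K = 2) (hCM : ¬ IsCMField H) (p : ℕ)
    [Fact p.Prime] (ιinf : Ω →+* ℂ) (ιp : Ω →+* ℂ_[p])
    (χ : (H ≃ₐ[K] H) →* ℂ_[p]ˣ) (hχ : Function.Injective χ)
    (g : H ≃+* H) (τ : K ≃+* K) (hg : ∀ x, g (algebraMap K H x) = algebraMap K H (τ x))
    (hτ : ∃ x, τ (τ x) ≠ x) (s : ℂ_[p] ≃ₐ[ℚ_[p]] ℂ_[p])
    (hs : ∀ h h' : H ≃ₐ[K] H, (∀ x, h' (g x) = g (h x)) → ((χ h' : ℂ_[p]ˣ) : ℂ_[p]) = s (χ h))
    (L : IwasawaLog p ℂ_[p]) (S : Set (K →+* ℂ)) (hS : IsCMType S) (hSo : IsOrdinary ιinf ιp S) :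
    InjectiveOn (finrank K H) χ unitsHom (logSigma ιinf ιp S L) := by
  have h4 : finrank ℚ K = 4 := by
    rw [← Module.finrank_mul_finrank ℚ F K, hF, hK]
  have hfin : FiniteDimensional K H := Module.Finite.of_restrictScalars_finite ℚ K H
  have hsq := comp_sq h4 τ hτ
  set S' : Set (K →+* ℂ) := {t | t.comp (τ : K →+* K) ∈ S} with hS'
  have hS'cm : IsCMType S' := by
    intro φ
    show φ.comp (τ : K →+* K) ∈ S ↔ (ComplexEmbedding.conjugate φ).comp (τ : K →+* K) ∉ S
    exact hS (φ.comp (τ : K →+* K))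
  obtain ⟨s₀⟩ : Nonempty (K →+* ℂ) := inferInstance
  have key : ∀ φ : K →+* ℂ, (φ.comp (τ : K →+* K)).comp (τ : K →+* K) ∈ S ↔ φ ∉ S := by
    intro φ
    rw [hsq φ, hS φ, not_not]
  have hne : S ≠ S' := by
    intro h
    have h1 : ∀ φ : K →+* ℂ, φ ∈ S ↔ φ.comp (τ : K →+* K) ∈ S := by
      intro φ
      constructor
      · intro h2
        rw [h] at h2
        exact h2
      · intro h2
        rw [h]
        exact h2
    have h2 := key s₀
    rw [← h1, ← h1] at h2
    tauto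
  have hne' : S' ≠ Sᶜ := by
    intro h
    have h1 : ∀ φ : K →+* ℂ, φ.comp (τ : K →+* K) ∈ S ↔ φ ∉ S := by
      intro φ
      have h2 : φ ∈ S' ↔ φ ∈ Sᶜ := by rw [h]
      exact h2
    have h2 := key s₀
    rw [h1, h1, not_not] at h2
    tauto
  rcases Pool.Agent.Helper17.SL.mainA hF hK hCM p ℂ_[p] ιinf ιp S S' hS hS'cm hne hne' χ hχ L with
    h | h
  · exact h
  · -- the transport
    have hT' : PlaceClosed (TSet ιinf ιp S') := by
      have aux : ∀ ρ₁ ρ₂ : K →+* ℂ_[p], (∀ x : K, ‖ρ₁ x‖ = ‖ρ₂ x‖) → ρ₁ ∈ TSet ιinf ιp S' →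
          ρ₂ ∈ TSet ιinf ιp S' := by
        rintro _ ρ₂ hn ⟨σ₁, hσ₁, rfl⟩
        obtain ⟨σ₂, hσ₂⟩ : ∃ σ₂ : K →+* Ω, ρ₂ = ιp.comp σ₂ := by
          have hQ : (ρ₂.comp (algebraMap ℚ K)) = ιp.comp (algebraMap ℚ Ω) := Subsingleton.elim _ _
          exact exists_lift ιp (algebraMap ℚ Ω) ρ₂ hQ
        subst hσ₂
        refine ⟨σ₂, ?_, rfl⟩
        have h1 := hSo (σ₁.comp (τ : K →+* K)) (σ₂.comp (τ : K →+* K)) (fun x ↦ hn (τ x))
        exact h1.1 hσ₁
      intro ρ₁ ρ₂ hn
      exact ⟨aux ρ₁ ρ₂ hn, aux ρ₂ ρ₁ fun x ↦ (hn x).symm⟩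
    -- the character `s⁻¹ χ`
    set χ' : (H ≃ₐ[K] H) →* ℂ_[p]ˣ :=
      (Units.map (s.symm : ℂ_[p] →* ℂ_[p])).comp χ with hχ'
    have hχ'v : ∀ h : H ≃ₐ[K] H, ((χ' h : ℂ_[p]ˣ) : ℂ_[p]) = s.symm (χ h) := fun h ↦ rfl
    have h' := inj_conj ιinf ιp S' hT' L χ χ' s.symm hχ'v h
    have hcj : ∀ h, χ' (cj g τ hg h) = χ h := by
      intro h
      apply Units.ext
      rw [hχ'v, hs h (cj g τ hg h) (fun x ↦ cj_apply g τ hg h x), s.symm_apply_apply]
    intro x hx
    apply extEnd_gU_injective g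
    rw [← eChi_gU g τ hg _ χ χ' hcj]
    apply h'
    rintro ℓ ⟨σ, hσ, rfl⟩
    rw [eChi_gU g τ hg _ χ χ' hcj, extHom_gU]
    apply hx
    refine ⟨σ.comp (g : H →+* H), ?_, rfl⟩
    have h2 : (σ.comp (g : H →+* H)).comp (algebraMap K H) =
        (σ.comp (algebraMap K H)).comp (τ : K →+* K) := by
      ext x
      show σ (g (algebraMap K H x)) = σ (algebraMap K H (τ x))
      rw [hg]
    rw [h2]
    exact hσ

end quartic

end Pool.Agent.Helper16.SB
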