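import Pool.Agent.Helper16.SB.Stable
import Pool.Agent.Helper16.SB.Quartic
import Pool.Agent.Helper60.TH.DEIG

/-!
# Project SB (MP_fc6b1e_nt): transport of the `Σ`-Leopoldt statement by an automorphism of `ℚ̄` preserving `K`
-/

set_option autoImplicit false

namespace Pool.Agent.Helper16.SB

open NumberField Module TensorProduct
open Pool.Agent.Helper51.SigLeo Pool.Agent.Helper51.RP Pool.Agent.Helper42.RD
open Pool.Agent.Helper38.FD (Chr CutsOut LeopoldtFor)
open Pool.Agent.Helper38.TH (actU)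

section

variable {p : ℕ} [Fact p.Prime] {K : Type} [Field K] [NumberField K]

/-- The restriction of `γ` to a stable subfield. -/
noncomputable def rst (γ : AlgebraicClosure K ≃+* AlgebraicClosure K)
    (E : IntermediateField K (AlgebraicClosure K)) (h1 : ∀ x ∈ E, γ x ∈ E)
    (h2 : ∀ x ∈ E, γ.symm x ∈ E) : E ≃+* E where
  toFun x := ⟨γ x, h1 x x.2⟩
  invFun x := ⟨γ.symm x, h2 x x.2⟩
  left_inv x := Subtype.ext (γ.symm_apply_apply _)
  right_inv x := Subtype.ext (γ.apply_symm_apply _)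
  map_mul' x y := Subtype.ext (map_mul γ _ _)
  map_add' x y := Subtype.ext (map_add γ _ _)

theorem rst_coe (γ : AlgebraicClosure K ≃+* AlgebraicClosure K)
    (E : IntermediateField K (AlgebraicClosure K)) (h1 : ∀ x ∈ E, γ x ∈ E)
    (h2 : ∀ x ∈ E, γ.symm x ∈ E) (x : E) :
    ((rst γ E h1 h2 x : E) : AlgebraicClosure K) = γ x := rfl

theorem rst_symm_coe (γ : AlgebraicClosure K ≃+* AlgebraicClosure K)
    (E : IntermediateField K (AlgebraicClosure K)) (h1 : ∀ x ∈ E, γ x ∈ E)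
    (h2 : ∀ x ∈ E, γ.symm x ∈ E) (x : E) :
    (((rst γ E h1 h2).symm x : E) : AlgebraicClosure K) = γ.symm x := rfl

omit [NumberField K] in
theorem restrict_coe (E : IntermediateField K (AlgebraicClosure K)) [Normal K E]
    (g : AlgebraicClosure K ≃ₐ[K] AlgebraicClosure K) (x : E) :
    ((AlgEquiv.restrictNormalHom E g x : E) : AlgebraicClosure K) = g x :=
  AlgEquiv.restrictNormal_commutes g E x

/-- `γ h γ⁻¹`. -/
noncomputable def cjΩ (γ : AlgebraicClosure K ≃+* AlgebraicClosure K) (τ : K ≃+* K)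
    (hγ : ∀ x : K, γ (algebraMap K (AlgebraicClosure K) x) =
      algebraMap K (AlgebraicClosure K) (τ x))
    (h : AlgebraicClosure K ≃ₐ[K] AlgebraicClosure K) :
    AlgebraicClosure K ≃ₐ[K] AlgebraicClosure K :=
  AlgEquiv.ofRingEquiv (f := (γ.symm.trans (h : AlgebraicClosure K ≃+* AlgebraicClosure K)).trans γ)
    (by
      intro x
      show γ (h (γ.symm (algebraMap K (AlgebraicClosure K) x))) = algebraMap K _ x
      have h1 : γ.symm (algebraMap K (AlgebraicClosure K) x) =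
          algebraMap K (AlgebraicClosure K) (τ.symm x) := by
        rw [γ.symm_apply_eq, hγ, τ.apply_symm_apply]
      rw [h1, h.commutes, hγ, τ.apply_symm_apply])

omit [NumberField K] in
theorem cjΩ_apply (γ : AlgebraicClosure K ≃+* AlgebraicClosure K) (τ : K ≃+* K)
    (hγ : ∀ x : K, γ (algebraMap K (AlgebraicClosure K) x) =
      algebraMap K (AlgebraicClosure K) (τ x))
    (h : AlgebraicClosure K ≃ₐ[K] AlgebraicClosure K) (x : AlgebraicClosure K) :
    cjΩ γ τ hγ h (γ x) = γ (h x) := by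
  show γ (h (γ.symm (γ x))) = γ (h x)
  rw [γ.symm_apply_apply]

/-- **Transport.** `κ' = κ^γ`, that is `κ'(γ h γ⁻¹) = κ(h)`. -/
theorem transport (ιinf : AlgebraicClosure K →+* ℂ) (ιp : AlgebraicClosure K →+* ℂ_[p])
    (Lg : IwasawaLog p ℂ_[p]) (S : Set (K →+* ℂ))
    (γ : AlgebraicClosure K ≃+* AlgebraicClosure K) (τ : K ≃+* K)
    (hγ : ∀ x : K, γ (algebraMap K (AlgebraicClosure K) x) =
      algebraMap K (AlgebraicClosure K) (τ x))
    (κ κ' : Chr K (AlgebraicClosure K) ℂ_[p])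
    (hκ' : ∀ h h' : AlgebraicClosure K ≃ₐ[K] AlgebraicClosure K,
      (∀ x, h' (γ x) = γ (h x)) → κ' h' = κ h)
    (hL : LeopoldtFor ιinf ιp Lg S κ) :
    LeopoldtFor ιinf ιp Lg {t | t.comp (τ : K →+* K) ∈ S} κ' := by
  obtain ⟨H, hHfd, hHcut, -⟩ := id hL
  obtain ⟨E, hEfd, hEn, hHE, hst⟩ := exists_stable H
  have hEc : CharZero E := charZero_of_injective_algebraMap (algebraMap K E).injective
  have hEQ : FiniteDimensional ℚ E := FiniteDimensional.trans ℚ K E
  have hEnf : NumberField E := ⟨⟩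
  have hγ' : ∀ x : K, γ.symm (algebraMap K (AlgebraicClosure K) x) =
      algebraMap K (AlgebraicClosure K) (τ.symm x) := by
    intro x
    rw [γ.symm_apply_eq, hγ, τ.apply_symm_apply]
  have h1 : ∀ x ∈ E, γ x ∈ E := hst γ fun x ↦ ⟨τ x, hγ x⟩
  have h2 : ∀ x ∈ E, γ.symm x ∈ E := hst γ.symm fun x ↦ ⟨τ.symm x, hγ' x⟩
  have hκE : ∀ g : AlgebraicClosure K ≃ₐ[K] AlgebraicClosure K, (∀ x ∈ E, g x = x) → κ g = 1 :=
    fun g hg ↦ (hHcut g).2 fun x hx ↦ hg x (hHE hx)
  have hcj : ∀ h, κ' (cjΩ γ τ hγ h) = κ h := fun h ↦ hκ' h _ (cjΩ_apply γ τ hγ h)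
  have hκ'E : ∀ g : AlgebraicClosure K ≃ₐ[K] AlgebraicClosure K, (∀ x ∈ E, g x = x) → κ' g = 1 := by
    intro g hg
    have h3 : κ' g = κ (cjΩ γ.symm τ.symm hγ' g) := by
      apply hκ'
      intro x
      have h4 := cjΩ_apply γ.symm τ.symm hγ' g (γ x)
      rw [γ.symm_apply_apply] at h4
      rw [h4, γ.apply_symm_apply]
    rw [h3]
    apply hκE
    intro x hx
    have h5 := cjΩ_apply γ.symm τ.symm hγ' g (γ x)
    rw [γ.symm_apply_apply] at h5
    rw [h5, hg _ (h1 x hx), γ.symm_apply_apply]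
  rw [Pool.Agent.Helper60.TH.d_eig p K ιinf ιp Lg _ E κ hκE] at hL
  rw [Pool.Agent.Helper60.TH.d_eig p K ιinf ιp Lg _ E κ' hκ'E]
  intro v hv1 hv2
  set g := rst γ E h1 h2 with hg
  have hgs : ∀ x : E, ((g.symm x : E) : AlgebraicClosure K) = γ.symm x :=
    rst_symm_coe γ E h1 h2
  apply extEnd_gU_injective g.symm
  apply hL
  · intro h
    have h3 := hv1 (cjΩ γ τ hγ h)
    rw [hcj h] at h3
    have e1 : extEnd (actU E h) (extEnd (gU g.symm) v) =
        extEnd (gU g.symm) (extEnd (actU E (cjΩ γ τ hγ h)) v) := by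
      rw [extEnd_comp_gen (actU E h) (gU g.symm) ((actU E h).comp (gU g.symm)) (fun m ↦ rfl) v]
      symm
      apply extEnd_comp_gen
      intro m
      apply add_units_ext
      rw [AddMonoidHom.comp_apply]
      unfold actU
      rw [gU_coe, unitsHom_coe, unitsHom_coe, gU_coe]
      apply Subtype.ext
      rw [hgs, restrict_coe, restrict_coe, hgs]
      have h4 := cjΩ_apply γ τ hγ h (γ.symm (((m.toMul : (𝓞 E)ˣ) : E) : AlgebraicClosure K))
      rw [γ.apply_symm_apply] at h4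
      rw [h4, γ.symm_apply_apply]
    rw [e1, h3, map_smul]
  · intro ρ hρ
    rw [extHom_gU]
    apply hv2
    obtain ⟨σ₀, hσ₀, hρ'⟩ := hρ
    refine ⟨σ₀.comp (τ.symm : K →+* K), ?_, ?_⟩
    · show ((ιinf.comp (σ₀.comp (τ.symm : K →+* K))).comp (τ : K →+* K)) ∈ S
      have h5 : (ιinf.comp (σ₀.comp (τ.symm : K →+* K))).comp (τ : K →+* K) = ιinf.comp σ₀ := by
        ext x
        show ιinf (σ₀ (τ.symm (τ x))) = ιinf (σ₀ x)
        rw [τ.symm_apply_apply]
      rw [h5]
      exact hσ₀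
    · ext x
      show ρ (g.symm (algebraMap K E x)) = ιp (σ₀ (τ.symm x))
      have h6 : g.symm (algebraMap K E x) = algebraMap K E (τ.symm x) := by
        apply Subtype.ext
        rw [hgs]
        exact hγ' x
      rw [h6]
      exact RingHom.congr_fun hρ' (τ.symm x)

end

end Pool.Agent.Helper16.SB
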