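import Pool.Agent.Helper16.SB.Aut
import Pool.Agent.Helper16.SB.Transport
import Pool.Agent.Helper38.SC.Defs

/-!
# Project SB (MP_fc6b1e_nt): characters of order dividing `2 p ^ a` with a field Galois over `ℚ` are symmetric
-/

set_option autoImplicit false

namespace Pool.Agent.Helper16.SB

open NumberField Module
open Pool.Agent.Helper38.FD (Chr CutsOut)
open Pool.Agent.Helper38.SC (Sym ConjBy)

/-- The same for the roots of unity of order `2 p ^ n`. -/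
theorem exists_aut2 (p : ℕ) [Fact p.Prime] (n k : ℕ) (hk : k.Coprime (2 * p)) :
    ∃ s : ℂ_[p] ≃ₐ[ℚ_[p]] ℂ_[p], ∀ z : ℂ_[p], z ^ (2 * p ^ n) = 1 → s z = z ^ k := by
  have hp : p.Prime := Fact.out
  have hk2 : k.Coprime 2 := Nat.Coprime.coprime_mul_right_right hk
  have hkp : k.Coprime p := Nat.Coprime.coprime_mul_left_right hk
  obtain ⟨s, hs⟩ := exists_aut p (n + 1) k hkp
  refine ⟨s, fun z hz ↦ ?_⟩
  rcases hp.eq_two_or_odd' with rfl | hodd
  · apply hs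
    rw [pow_succ, mul_comm]
    exact hz
  · have h1 : (z ^ p ^ n) ^ 2 = 1 := by rw [← pow_mul, mul_comm, hz]
    have hpow : ∀ w : ℂ_[p], w ^ p ^ n = 1 → w ^ p ^ (n + 1) = 1 := fun w hw ↦ by
      rw [pow_succ, pow_mul, hw, one_pow]
    rcases mul_self_eq_one_iff.1 ((sq _).symm.trans h1) with h | h
    · exact hs _ (hpow _ h)
    · have h2 : (-z) ^ p ^ n = 1 := by
        rw [(hodd.pow).neg_pow, h, neg_neg]
      have h3 := hs _ (hpow _ h2)
      have hk' : Odd k := Nat.coprime_two_right.1 hk2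
      rw [map_neg, hk'.neg_pow] at h3
      exact neg_injective h3

/-- Two elements of the same order which divides `2 p ^ a`, the first a power of the second. -/
theorem exists_aut3 (p : ℕ) [Fact p.Prime] (a : ℕ) (u u' : ℂ_[p]ˣ) (hu : u ^ (2 * p ^ a) = 1)
    (h1 : u ∈ Subgroup.zpowers u') (h2 : u' ∈ Subgroup.zpowers u) :
    ∃ s : ℂ_[p] ≃ₐ[ℚ_[p]] ℂ_[p], s (u' : ℂ_[p]) = u := by
  have hp : p.Prime := Fact.out
  have hpos : 0 < 2 * p ^ a := by have := pow_pos hp.pos a; omega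
  have hu' : u' ^ (2 * p ^ a) = 1 := by
    obtain ⟨j, hj⟩ := Subgroup.mem_zpowers_iff.1 h2
    rw [← hj, ← zpow_natCast, ← zpow_mul, mul_comm, zpow_mul, zpow_natCast, hu, one_zpow]
  have hfin : IsOfFinOrder u' := isOfFinOrder_iff_pow_eq_one.2 ⟨_, hpos, hu'⟩
  have hfin1 : IsOfFinOrder u := isOfFinOrder_iff_pow_eq_one.2 ⟨_, hpos, hu⟩
  have hord : orderOf u = orderOf u' := by
    apply Nat.dvd_antisymm
    · exact orderOf_dvd_of_mem_zpowers h1
    · exact orderOf_dvd_of_mem_zpowers h2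
  obtain ⟨k₀, hk₀⟩ : ∃ k₀ : ℕ, u' ^ k₀ = u := by
    have := hfin.mem_powers_iff_mem_zpowers.2 h1
    exact this
  have hm : orderOf u' ∣ 2 * p ^ a := orderOf_dvd_of_pow_eq_one hu'
  have hprim : IsPrimitiveRoot u' (orderOf u') := IsPrimitiveRoot.orderOf u'
  have hpos' : 0 < orderOf u' := hfin.orderOf_pos
  have hcop : k₀.Coprime (orderOf u') := by
    rw [← hprim.pow_iff_coprime hpos', hk₀, ← hord]
    exact IsPrimitiveRoot.orderOf u
  have hm' : orderOf u' ∣ 2 * p ^ (a + 1) := hm.trans (mul_dvd_mul_left 2 (pow_dvd_pow p (Nat.le_succ a)))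
  have : NeZero (2 * p ^ (a + 1)) := ⟨by have := pow_pos hp.pos (a + 1); omega⟩
  obtain ⟨w, hw⟩ := ZMod.unitsMap_surjective hm' (ZMod.unitOfCoprime k₀ hcop)
  set k := (w : ZMod (2 * p ^ (a + 1))).val with hk
  have hkc : k.Coprime (2 * p ^ (a + 1)) := ZMod.val_coe_unit_coprime w
  have hkc' : k.Coprime (2 * p) := by
    refine Nat.Coprime.coprime_dvd_right ?_ hkc
    rw [pow_succ]
    exact mul_dvd_mul_left 2 (Dvd.intro_left _ rfl)
  obtain ⟨s, hs⟩ := exists_aut2 p a k hkc'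
  refine ⟨s, ?_⟩
  have hz : (u' : ℂ_[p]) ^ (2 * p ^ a) = 1 := by
    rw [← Units.val_pow_eq_pow_val, hu', Units.val_one]
  rw [hs _ hz, ← hk₀, ← Units.val_pow_eq_pow_val]
  congr 1
  rw [pow_eq_pow_iff_modEq, ← ZMod.natCast_eq_natCast_iff]
  have h3 := congrArg (fun x : (ZMod (orderOf u'))ˣ ↦ (x : ZMod (orderOf u'))) hw
  simp only [ZMod.unitsMap_val, ZMod.coe_unitOfCoprime] at h3
  rw [← h3, hk]
  exact ZMod.natCast_val _

/-- Normality: the field is stable under all the automorphisms of `Ω`. -/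
theorem normal_stable {K : Type} [Field K] [NumberField K]
    (H : IntermediateField K (AlgebraicClosure K)) [Normal ℚ H]
    (γ : AlgebraicClosure K ≃+* AlgebraicClosure K) (x : AlgebraicClosure K) (hx : x ∈ H) :
    γ x ∈ H := by
  let γ' : AlgebraicClosure K →ₐ[ℚ] AlgebraicClosure K := (γ : _ →+* _).toRatAlgHom
  have h1 := AlgHom.restrictNormal_commutes γ' H ⟨x, hx⟩
  have h2 : γ' (algebraMap H (AlgebraicClosure K) ⟨x, hx⟩) = γ x := rfl
  rw [h2] at h1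
  rw [← h1]
  exact (γ'.restrictNormal H ⟨x, hx⟩).2

/-- **Symmetry.** -/
theorem sym_of_galois {p : ℕ} [Fact p.Prime] {K : Type} [Field K] [NumberField K]
    (κ : Chr K (AlgebraicClosure K) ℂ_[p]) (a : ℕ) (hκ : κ ^ (2 * p ^ a) = 1)
    (H : IntermediateField K (AlgebraicClosure K)) (hH : CutsOut κ H) (hn : Normal ℚ H)
    (g : K ≃ₐ[ℚ] K) : Sym {1} g κ := by
  classical
  have hp : p.Prime := Fact.out
  have hpos : 0 < 2 * p ^ a := by have := pow_pos hp.pos a; omega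
  let γ : AlgebraicClosure K ≃+* AlgebraicClosure K :=
    IsAlgClosure.equivOfEquiv (AlgebraicClosure K) (AlgebraicClosure K) (g : K ≃+* K)
  have hγ : ∀ x : K, γ (algebraMap K (AlgebraicClosure K) x) =
      algebraMap K (AlgebraicClosure K) ((g : K ≃+* K) x) := fun x ↦
    IsAlgClosure.equivOfEquiv_algebraMap _ _ _ x
  -- the conjugation on `G`
  have hker : ∀ h h' : AlgebraicClosure K ≃ₐ[K] AlgebraicClosure K,
      (∀ x, h' (γ x) = γ (h x)) → (κ h' = 1 ↔ κ h = 1) := by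
    intro h h' hh
    rw [hH, hH]
    constructor
    · intro h1 x hx
      apply γ.injective
      rw [← hh, h1 _ (normal_stable H γ x hx)]
    · intro h1 x hx
      have h2 := h1 _ (normal_stable H γ.symm x hx)
      have h3 := hh (γ.symm x)
      rw [h2, γ.apply_symm_apply] at h3
      exact h3
  -- the image is cyclic
  have hfin : Finite κ.range := by
    have : NeZero (2 * p ^ a) := ⟨hpos.ne'⟩
    have h1 : ∀ x : κ.range, (x : ℂ_[p]ˣ) ∈ rootsOfUnity (2 * p ^ a) ℂ_[p] := by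
      rintro ⟨_, h, rfl⟩
      rw [mem_rootsOfUnity]
      exact DFunLike.congr_fun hκ h
    exact Finite.of_injective (fun x : κ.range ↦ (⟨x, h1 x⟩ : rootsOfUnity (2 * p ^ a) ℂ_[p]))
      fun x y hxy ↦ Subtype.ext (congrArg (fun z : rootsOfUnity (2 * p ^ a) ℂ_[p] ↦
        (z : ℂ_[p]ˣ)) hxy)
  obtain ⟨⟨_, h₀, rfl⟩, hgen⟩ := IsCyclic.exists_generator (α := κ.range)
  have hgen' : ∀ h, ∃ j : ℤ, κ h = κ h₀ ^ j := by
    intro h
    obtain ⟨j, hj⟩ := Subgroup.mem_zpowers_iff.1 (hgen ⟨κ h, h, rfl⟩)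
    exact ⟨j, (congrArg Subtype.val hj).symm⟩
  set h₀' := cjΩ γ (g : K ≃+* K) hγ h₀ with hh₀'
  have hc₀ : ∀ x, h₀' (γ x) = γ (h₀ x) := fun x ↦ cjΩ_apply γ _ hγ h₀ x
  -- the relation between the exponents
  have hcz : ∀ (j : ℤ) (x), (h₀' ^ j) (γ x) = γ ((h₀ ^ j) x) := by
    have hcn : ∀ (j : ℕ) (x), (h₀' ^ j) (γ x) = γ ((h₀ ^ j) x) := by
      intro j
      induction j with
      | zero => intro x; rfl
      | succ j ih =>
        intro x
        rw [pow_succ, pow_succ]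
        show (h₀' ^ j) (h₀' (γ x)) = γ ((h₀ ^ j) (h₀ x))
        rw [hc₀, ih]
    intro j x
    obtain ⟨n, rfl | rfl⟩ := j.eq_nat_or_neg
    · simp only [zpow_natCast]
      exact hcn n x
    · simp only [zpow_neg, zpow_natCast]
      have h1 := hcn n ((h₀ ^ n)⁻¹ x)
      have h2 : (h₀ ^ n) ((h₀ ^ n)⁻¹ x) = x := (h₀ ^ n).apply_symm_apply x
      rw [h2] at h1
      have h3 := congrArg (fun y ↦ (h₀' ^ n).symm y) h1
      have h4 : ∀ y, (h₀' ^ n).symm ((h₀' ^ n) y) = y := fun y ↦ (h₀' ^ n).symm_apply_apply y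
      simp only [h4] at h3
      exact h3.symm
  have hrel : ∀ (h h' : AlgebraicClosure K ≃ₐ[K] AlgebraicClosure K),
      (∀ x, h' (γ x) = γ (h x)) → ∀ j : ℤ, κ h = κ h₀ ^ j ↔ κ h' = κ h₀' ^ j := by
    intro h h' hh j
    have h1 := hker (h * h₀ ^ (-j)) (h' * h₀' ^ (-j)) (by
      intro x
      show h' ((h₀' ^ (-j)) (γ x)) = γ (h ((h₀ ^ (-j)) x))
      rw [hcz, hh])
    rw [map_mul, map_mul, map_zpow, map_zpow, zpow_neg, zpow_neg, mul_inv_eq_one,
      mul_inv_eq_one] at h1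
    exact h1.symm
  -- the conjugate of `h₀` also generates
  have hinv : ∃ h₁ : AlgebraicClosure K ≃ₐ[K] AlgebraicClosure K, ∀ x, h₀ (γ x) = γ (h₁ x) := by
    have hγs : ∀ x : K, γ.symm (algebraMap K (AlgebraicClosure K) x) =
        algebraMap K (AlgebraicClosure K) ((g : K ≃+* K).symm x) := fun x ↦ by
      rw [γ.symm_apply_eq, hγ, RingEquiv.apply_symm_apply]
    refine ⟨cjΩ γ.symm (g : K ≃+* K).symm hγs h₀, fun x ↦ ?_⟩
    have h1 := cjΩ_apply γ.symm _ hγs h₀ (γ x)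
    rw [γ.symm_apply_apply] at h1
    rw [h1, γ.apply_symm_apply]
  obtain ⟨h₁, hh₁⟩ := hinv
  have hz1 : κ h₀ ∈ Subgroup.zpowers (κ h₀') := by
    obtain ⟨j, hj⟩ := hgen' h₁
    rw [(hrel h₁ h₀ hh₁ j).1 hj]
    exact Subgroup.zpow_mem_zpowers _ _
  have hz2 : κ h₀' ∈ Subgroup.zpowers (κ h₀) := by
    obtain ⟨j, hj⟩ := hgen' h₀'
    rw [hj]
    exact Subgroup.zpow_mem_zpowers _ _
  obtain ⟨s, hs⟩ := exists_aut3 p a (κ h₀) (κ h₀') (DFunLike.congr_fun hκ h₀) hz1 hz2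
  refine ⟨γ, s, 1, rfl, hγ, ?_⟩
  intro h h' hh
  obtain ⟨j, hj⟩ := hgen' h
  have hj' := (hrel h h' hh j).1 hj
  apply Units.ext
  show s (κ h' : ℂ_[p]ˣ) * ((1 : ℂ_[p]ˣ) : ℂ_[p]) = (κ h : ℂ_[p]ˣ)
  rw [Units.val_one, mul_one, hj', hj, Units.val_zpow_eq_zpow_val, map_zpow₀, hs,
    Units.val_zpow_eq_zpow_val]

end Pool.Agent.Helper16.SB
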