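import Pool.Agent.Helper38.SC.Defs
import Pool.Agent.Helper57.TH.DFINA
import Pool.Agent.Helper57.TH.DRAM

/-!
# Project SB (MP_fc6b1e_nt): the characters of a tower
-/

set_option autoImplicit false

namespace Pool.Agent.Helper16.SB

open NumberField
open Pool.Agent.Helper38.FD (Chr CutsOut)
open Pool.Agent.Helper38.TH (IsTower Hat)
open Pool.Agent.Helper38.SD (IsCyclo)
open Pool.Agent.Helper38.SC (ConjBy)
open Pool.Agent.Helper57.TH (tower_pow tower_ord)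

variable {p : ℕ} [Fact p.Prime] {K : Type} [Field K]

theorem hat_mul' {η : ℕ → Chr K (AlgebraicClosure K) ℂ_[p]} (hη : IsTower η)
    {ξ ξ' : Chr K (AlgebraicClosure K) ℂ_[p]} (h : ξ ∈ Hat η) (h' : ξ' ∈ Hat η) :
    ξ * ξ' ∈ Hat η := by
  obtain ⟨n, a, rfl⟩ := h
  obtain ⟨m, b, rfl⟩ := h'
  refine ⟨n + m, p ^ m * a + p ^ n * b, ?_⟩
  refine MonoidHom.ext fun g ↦ ?_
  show (η n g) ^ a * (η m g) ^ b = (η (n + m) g) ^ (p ^ m * a + p ^ n * b)
  rw [pow_add, pow_mul, pow_mul, tower_pow hη n m g, add_comm n m, tower_pow hη m n g]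

theorem hat_inv {η : ℕ → Chr K (AlgebraicClosure K) ℂ_[p]} (hη : IsTower η)
    {ξ : Chr K (AlgebraicClosure K) ℂ_[p]} (h : ξ ∈ Hat η) : ξ⁻¹ ∈ Hat η := by
  have hp : p.Prime := Fact.out
  obtain ⟨n, a, rfl⟩ := h
  refine ⟨n, p ^ n * a - a, ?_⟩
  refine MonoidHom.ext fun g ↦ ?_
  show ((η n g) ^ a)⁻¹ = (η n g) ^ (p ^ n * a - a)
  have h1 : a ≤ p ^ n * a := Nat.le_mul_of_pos_left a (pow_pos hp.pos n)
  rw [eq_comm, ← mul_eq_one_iff_eq_inv, ← pow_add, Nat.sub_add_cancel h1, pow_mul, tower_ord hη,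
    one_pow]

theorem hat_conj {η : ℕ → Chr K (AlgebraicClosure K) ℂ_[p]} (hη : IsTower η)
    (s : ℂ_[p] ≃ₐ[ℚ_[p]] ℂ_[p]) {ξ : Chr K (AlgebraicClosure K) ℂ_[p]} (h : ξ ∈ Hat η) :
    (Units.map (s : ℂ_[p] →* ℂ_[p])).comp ξ ∈ Hat η := by
  have hp : p.Prime := Fact.out
  obtain ⟨n, a, rfl⟩ := h
  have hpn : (p ^ n : ℕ) ≠ 0 := pow_ne_zero n hp.ne_zero
  have : NeZero ((p ^ n : ℕ) : ℂ_[p]) := ⟨by exact_mod_cast hpn⟩
  have : NeZero (p ^ n : ℕ) := ⟨hpn⟩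
  obtain ⟨ζ, hζ⟩ := HasEnoughRootsOfUnity.exists_primitiveRoot ℂ_[p] (p ^ n)
  have hsζ : (s ζ) ^ (p ^ n) = 1 := by rw [← map_pow, hζ.pow_eq_one, map_one]
  obtain ⟨b, -, hb⟩ := hζ.eq_pow_of_pow_eq_one hsζ
  refine ⟨n, b * a, ?_⟩
  refine MonoidHom.ext fun g ↦ ?_
  apply Units.ext
  show s ((((η n g) ^ a : ℂ_[p]ˣ)) : ℂ_[p]) = (((η n g) ^ (b * a) : ℂ_[p]ˣ) : ℂ_[p])
  have h1 : (((η n g : ℂ_[p]ˣ)) : ℂ_[p]) ^ (p ^ n) = 1 := by
    have h2 := congrArg Units.val (tower_ord hη n g)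
    rw [Units.val_pow_eq_pow_val, Units.val_one] at h2
    exact h2
  obtain ⟨j, -, hj⟩ := hζ.eq_pow_of_pow_eq_one h1
  have h3 : s (((η n g : ℂ_[p]ˣ)) : ℂ_[p]) = (((η n g : ℂ_[p]ˣ)) : ℂ_[p]) ^ b := by
    rw [← hj, map_pow, ← hb, ← pow_mul, ← pow_mul, mul_comm]
  rw [Units.val_pow_eq_pow_val, Units.val_pow_eq_pow_val, map_pow, h3, ← pow_mul]

theorem hat_cyc [CharZero K] {η : ℕ → Chr K (AlgebraicClosure K) ℂ_[p]} (hη : IsCyclo η)
    (γ : AlgebraicClosure K ≃+* AlgebraicClosure K) {ξ : Chr K (AlgebraicClosure K) ℂ_[p]}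
    (hξ : ξ ∈ Hat η) : ConjBy γ ξ ξ := by
  have hp : p.Prime := Fact.out
  obtain ⟨n, a, rfl⟩ := hξ
  intro h h' hh
  show (η n h') ^ a = (η n h) ^ a
  have h1 : η n (h⁻¹ * h') = 1 := by
    apply hη.cyc
    intro m ζ hζ
    have hpm : (p ^ m : ℕ) ≠ 0 := pow_ne_zero m hp.ne_zero
    have : CharZero (AlgebraicClosure K) :=
      charZero_of_injective_algebraMap (algebraMap K (AlgebraicClosure K)).injective
    have : NeZero ((p ^ m : ℕ) : AlgebraicClosure K) := ⟨by exact_mod_cast hpm⟩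
    have : NeZero (p ^ m : ℕ) := ⟨hpm⟩
    obtain ⟨ζ₀, hζ₀⟩ := HasEnoughRootsOfUnity.exists_primitiveRoot (AlgebraicClosure K) (p ^ m)
    have h2 : (h ζ₀) ^ (p ^ m) = 1 := by rw [← map_pow, hζ₀.pow_eq_one, map_one]
    obtain ⟨b, -, hb⟩ := hζ₀.eq_pow_of_pow_eq_one h2
    have h3 : ∀ x : AlgebraicClosure K, x ^ p ^ m = 1 → h x = x ^ b := by
      intro x hx
      obtain ⟨j, -, hj⟩ := hζ₀.eq_pow_of_pow_eq_one hx
      rw [← hj, map_pow, ← hb, ← pow_mul, ← pow_mul, mul_comm]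
    have h4 : (γ.symm ζ) ^ p ^ m = 1 := by rw [← map_pow, hζ, map_one]
    have h5 : h' ζ = h ζ := by
      have h6 := hh (γ.symm ζ)
      rw [γ.apply_symm_apply, h3 _ h4, map_pow, γ.apply_symm_apply] at h6
      rw [h6, h3 ζ hζ]
    show h⁻¹ (h' ζ) = ζ
    rw [h5]
    exact h.symm_apply_apply ζ
  rw [map_mul, map_inv, inv_mul_eq_one] at h1
  rw [h1]

/-- The tower is injective and the set of its characters is infinite. -/
theorem hat_infinite {η : ℕ → Chr K (AlgebraicClosure K) ℂ_[p]} (hη : IsTower η) :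
    (Hat η).Infinite := by
  have hinj : Function.Injective η := by
    have key : ∀ m n : ℕ, m < n → η m ≠ η n := by
      intro m n hmn h
      apply hη.one_ne
      refine MonoidHom.ext fun g ↦ ?_
      have h1 := tower_pow hη 1 (n - 1) g
      rw [Nat.add_sub_cancel' (by omega : 1 ≤ n)] at h1
      have h2 := tower_ord hη m g
      have h3 : n - 1 = m + (n - 1 - m) := by omega
      rw [← h1, ← h, h3, pow_add, pow_mul, h2, one_pow]
      rfl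
    intro m n h
    rcases Nat.lt_trichotomy m n with h1 | h1 | h1
    · exact absurd h (key m n h1)
    · exact h1
    · exact absurd h.symm (key n m h1)
  refine (Set.infinite_range_of_injective hinj).mono ?_
  rintro _ ⟨n, rfl⟩
  exact ⟨n, 1, MonoidHom.ext fun g ↦ (pow_one (η n g)).symm⟩

end Pool.Agent.Helper16.SB
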