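import Pool.Agent.Helper16.SB.Abs
import Pool.Agent.Helper16.SB.Hat
import Pool.Agent.Helper16.SB.Transport
import Pool.Agent.Helper38.SD.Asm

/-!
# Project SB (MP_fc6b1e_nt): the family of the sets which are good for almost all the characters `κ ξ`
-/

set_option autoImplicit false

namespace Pool.Agent.Helper16.SB

open NumberField Module TensorProduct
open Pool.Agent.Helper51.SigLeo Pool.Agent.Helper51.RP
open Pool.Agent.Helper16.SD (kd chiPart SplitP)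
open Pool.Agent.Helper42.RD (TSet)
open Pool.Agent.Helper38.FD (Chr CutsOut LeopoldtFor)
open Pool.Agent.Helper38.FW (InDec)
open Pool.Agent.Helper38.TH (IsTower Hat NoSplit dec_finite)
open Pool.Agent.Helper38.SD (IsCyclo FinOrd M_FUN A_EQV placeClosed_of_split finOrd_field
  leopoldt_iff)
open Pool.Agent.Helper38.SC (ConjBy)

variable {p : ℕ} [Fact p.Prime] {K : Type} [Field K] [NumberField K]

/-- `S` is good for `κ ξ`, for almost all `ξ ∈ Hat η`. -/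
def Gd (ιinf : AlgebraicClosure K →+* ℂ) (ιp : AlgebraicClosure K →+* ℂ_[p])
    (Lg : IwasawaLog p ℂ_[p]) (κ : Chr K (AlgebraicClosure K) ℂ_[p])
    (η : ℕ → Chr K (AlgebraicClosure K) ℂ_[p]) (S : Set (K →+* ℂ)) : Prop :=
  {ξ | ξ ∈ Hat η ∧ ¬ LeopoldtFor ιinf ιp Lg S (κ * ξ)}.Finite

/-- The exceptional characters. -/
def Bad (ιinf : AlgebraicClosure K →+* ℂ) (ιp : AlgebraicClosure K →+* ℂ_[p])
    (Lg : IwasawaLog p ℂ_[p]) (κ : Chr K (AlgebraicClosure K) ℂ_[p])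
    (η : ℕ → Chr K (AlgebraicClosure K) ℂ_[p]) : Set (Chr K (AlgebraicClosure K) ℂ_[p]) :=
  {ξ | ξ ∈ Hat η ∧ ¬ ∀ S, LeopoldtFor ιinf ιp Lg S (κ * ξ) ↔ Gd ιinf ιp Lg κ η S}

theorem bad_finite (hs : SplitP p K) (ιinf : AlgebraicClosure K →+* ℂ)
    (ιp : AlgebraicClosure K →+* ℂ_[p]) (Lg : IwasawaLog p ℂ_[p])
    (κ : Chr K (AlgebraicClosure K) ℂ_[p]) {N : ℕ} (hN : 0 < N) (hκN : κ ^ N = 1)
    (η : ℕ → Chr K (AlgebraicClosure K) ℂ_[p]) (hη : IsTower η) (hns : NoSplit η) :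
    (Bad ιinf ιp Lg κ η).Finite := by
  classical
  have hD := dec_finite hη hns κ hN hκN
  have hU : (⋃ S ∈ {S : Set (K →+* ℂ) | Gd ιinf ιp Lg κ η S},
      {ξ | ξ ∈ Hat η ∧ ¬ LeopoldtFor ιinf ιp Lg S (κ * ξ)}).Finite :=
    Set.Finite.biUnion (Set.toFinite _) fun S hS ↦ hS
  refine (hU.union hD).subset ?_
  rintro ξ ⟨hξ, hbad⟩
  by_contra hnot
  simp only [Set.mem_union, not_or] at hnot
  obtain ⟨hn1, hn2⟩ := hnot
  apply hbad
  intro S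
  constructor
  · intro hL
    have hdec : ∀ τ : AlgebraicClosure K →+* ℂ_[p], ∃ g, InDec τ g ∧ (κ * ξ) g ≠ 1 := by
      by_contra h3
      exact hn2 ⟨hξ, h3⟩
    have h1 := Pool.Agent.Helper17.TH.dich p K ιinf ιp Lg S (placeClosed_of_split hs _) (κ * ξ) η
      hη (Pool.Agent.Helper32.TH.d_unr p K η hη) (fun τ _ ↦ hdec τ) hL
    refine (h1.image fun ξ' ↦ ξ * ξ').subset ?_
    rintro ξ' ⟨hξ', hb⟩
    refine ⟨ξ⁻¹ * ξ', ⟨hat_mul' hη (hat_inv hη hξ) hξ', ?_⟩, ?_⟩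
    · have h2 : κ * ξ * (ξ⁻¹ * ξ') = κ * ξ' := MonoidHom.ext fun g ↦ by
        show κ g * ξ g * ((ξ g)⁻¹ * ξ' g) = κ g * ξ' g
        rw [mul_assoc, mul_inv_cancel_left]
      rw [h2]
      exact hb
    · refine MonoidHom.ext fun g ↦ ?_
      show ξ g * ((ξ g)⁻¹ * ξ' g) = ξ' g
      rw [mul_inv_cancel_left]
  · intro hG
    by_contra hL
    apply hn1
    simp only [Set.mem_iUnion]
    exact ⟨S, hG, hξ, hL⟩

/-- **Invariance.** -/
theorem gd_invariant (hs : SplitP p K) (ιinf : AlgebraicClosure K →+* ℂ)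
    (ιp : AlgebraicClosure K →+* ℂ_[p]) (Lg : IwasawaLog p ℂ_[p])
    (κ : Chr K (AlgebraicClosure K) ℂ_[p]) {N : ℕ} (hN : 0 < N) (hκN : κ ^ N = 1)
    (η : ℕ → Chr K (AlgebraicClosure K) ℂ_[p]) (hη : IsCyclo η) (hns : NoSplit η)
    (γ : AlgebraicClosure K ≃+* AlgebraicClosure K) (τ : K ≃+* K)
    (hγ : ∀ x : K, γ (algebraMap K (AlgebraicClosure K) x) =
      algebraMap K (AlgebraicClosure K) (τ x))
    (s : ℂ_[p] ≃ₐ[ℚ_[p]] ℂ_[p]) (ξ' : Chr K (AlgebraicClosure K) ℂ_[p]) (hξ' : ξ' ∈ Hat η)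
    (hsym : ConjBy γ κ ((Units.map (s : ℂ_[p] →* ℂ_[p])).comp κ * ξ'))
    (S : Set (K →+* ℂ)) (hS : Gd ιinf ιp Lg κ η S) :
    Gd ιinf ιp Lg κ η {t | t.comp (τ : K →+* K) ∈ S} := by
  classical
  have hB := bad_finite hs ιinf ιp Lg κ hN hκN η hη.tower hns
  set F : Chr K (AlgebraicClosure K) ℂ_[p] → Chr K (AlgebraicClosure K) ℂ_[p] :=
    fun ξ ↦ (Units.map (s.symm : ℂ_[p] →* ℂ_[p])).comp (ξ' * ξ) with hFdef
  have hFinj : Function.Injective F := by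
    intro a b hab
    refine MonoidHom.ext fun g ↦ ?_
    have h1 := DFunLike.congr_fun hab g
    have h2 : s.symm ((ξ' g * a g : ℂ_[p]ˣ) : ℂ_[p]) = s.symm ((ξ' g * b g : ℂ_[p]ˣ) : ℂ_[p]) :=
      congrArg Units.val h1
    have h3 := s.symm.injective h2
    exact mul_left_cancel (Units.ext h3)
  have hFmem : ∀ ξ ∈ Hat η, F ξ ∈ Hat η := fun ξ hξ ↦
    hat_conj hη.tower s.symm (hat_mul' hη.tower hξ' hξ)
  -- a character which avoids the exceptional sets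
  obtain ⟨ξ₀, hξ₀, hb0, hb1⟩ : ∃ ξ₀ ∈ Hat η, ξ₀ ∉ Bad ιinf ιp Lg κ η ∧
      F ξ₀ ∉ Bad ιinf ιp Lg κ η := by
    by_contra hno
    push Not at hno
    apply hat_infinite hη.tower
    refine (hB.union (hB.preimage hFinj.injOn)).subset ?_
    intro ξ hξ
    by_cases h : ξ ∈ Bad ιinf ιp Lg κ η
    · exact Or.inl h
    · exact Or.inr (hno ξ hξ h)
  have hL0 : LeopoldtFor ιinf ιp Lg S (κ * ξ₀) := by
    by_contra h
    apply hb0
    refine ⟨hξ₀, fun h1 ↦ h ((h1 S).2 hS)⟩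
  -- the transport
  have hcyc := hat_cyc hη γ hξ₀
  have h1 := transport ιinf ιp Lg S γ τ hγ (κ * ξ₀)
    ((Units.map (s : ℂ_[p] →* ℂ_[p])).comp κ * ξ' * ξ₀) (by
      intro h h' hh
      have e1 := hsym h h' hh
      have e2 := hcyc h h' hh
      show ((Units.map (s : ℂ_[p] →* ℂ_[p])).comp κ * ξ') h' * ξ₀ h' = κ h * ξ₀ h
      rw [e1, e2]) hL0
  have h2 := Pool.Agent.Helper8.TH.d_inv p K ιinf ιp Lg _ (placeClosed_of_split hs _) _ h1 s.symm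
  have h3 : (Units.map (s.symm : ℂ_[p] →* ℂ_[p])).comp
      ((Units.map (s : ℂ_[p] →* ℂ_[p])).comp κ * ξ' * ξ₀) = κ * F ξ₀ := by
    refine MonoidHom.ext fun g ↦ ?_
    apply Units.ext
    show s.symm (s (κ g : ℂ_[p]ˣ) * (ξ' g : ℂ_[p]ˣ) * (ξ₀ g : ℂ_[p]ˣ)) =
      ((κ g : ℂ_[p]ˣ) : ℂ_[p]) * s.symm ((ξ' g * ξ₀ g : ℂ_[p]ˣ) : ℂ_[p])
    rw [mul_assoc, map_mul, s.symm_apply_apply, Units.val_mul]
  rw [h3] at h2
  by_contra hG
  apply hb1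
  exact ⟨hFmem _ hξ₀, fun h4 ↦ hG ((h4 _).1 h2)⟩

/-- The translates under the powers. -/
theorem gd_iterate (hs : SplitP p K) (ιinf : AlgebraicClosure K →+* ℂ)
    (ιp : AlgebraicClosure K →+* ℂ_[p]) (Lg : IwasawaLog p ℂ_[p])
    (κ : Chr K (AlgebraicClosure K) ℂ_[p]) {N : ℕ} (hN : 0 < N) (hκN : κ ^ N = 1)
    (η : ℕ → Chr K (AlgebraicClosure K) ℂ_[p]) (hη : IsCyclo η) (hns : NoSplit η)
    (γ : AlgebraicClosure K ≃+* AlgebraicClosure K) (τ : K ≃+* K)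
    (hγ : ∀ x : K, γ (algebraMap K (AlgebraicClosure K) x) =
      algebraMap K (AlgebraicClosure K) (τ x))
    (s : ℂ_[p] ≃ₐ[ℚ_[p]] ℂ_[p]) (ξ' : Chr K (AlgebraicClosure K) ℂ_[p]) (hξ' : ξ' ∈ Hat η)
    (hsym : ConjBy γ κ ((Units.map (s : ℂ_[p] →* ℂ_[p])).comp κ * ξ'))
    (S : Set (K →+* ℂ)) (hS : Gd ιinf ιp Lg κ η S) (n : ℕ) :
    Gd ιinf ιp Lg κ η {t | (fun φ : K →+* ℂ ↦ φ.comp (τ : K →+* K))^[n] t ∈ S} := by
  induction n with
  | zero => exact hS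
  | succ n ih =>
    have h1 := gd_invariant hs ιinf ιp Lg κ hN hκN η hη hns γ τ hγ s ξ' hξ' hsym _ ih
    have h2 : {t : K →+* ℂ | t.comp (τ : K →+* K) ∈
        {t | (fun φ : K →+* ℂ ↦ φ.comp (τ : K →+* K))^[n] t ∈ S}} =
        {t | (fun φ : K →+* ℂ ↦ φ.comp (τ : K →+* K))^[n + 1] t ∈ S} := by
      ext t
      rfl
    rw [h2] at h1
    exact h1

/-- **The interval theorem.** -/
theorem gd_interval (hF : M_FUN) (hE : A_EQV) (hs : SplitP p K)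
    (ιinf : AlgebraicClosure K →+* ℂ) (ιp : AlgebraicClosure K →+* ℂ_[p])
    (Lg : IwasawaLog p ℂ_[p]) (d : ℕ) (hd0 : 0 < d)
    (κ : Chr K (AlgebraicClosure K) ℂ_[p]) {N : ℕ} (hN : 0 < N) (hκN : κ ^ N = 1)
    (η : ℕ → Chr K (AlgebraicClosure K) ℂ_[p]) (hη : IsCyclo η) (hns : NoSplit η)
    (hfin : ∀ ξ ∈ Hat η, FinOrd (κ * ξ))
    (hdim : ∀ ξ ∈ Hat η, ∀ (F : IntermediateField K (AlgebraicClosure K)) [NumberField F]
      [IsGalois K F], (∀ g, (∀ x ∈ F, g x = x) → (κ * ξ) g = 1) →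
      finrank ℂ_[p] (chiPart F (κ * ξ)) = d)
    (huniv : Gd ιinf ιp Lg κ η Set.univ)
    (f : (K →+* ℂ) → (K →+* ℂ)) (hf1 : f^[2 * d] = id)
    (hf : ∀ S, Gd ιinf ιp Lg κ η S → Gd ιinf ιp Lg κ η (f '' S)) (φ : K →+* ℂ)
    (hcyc : ∀ x, ∃ i, i < 2 * d ∧ x = f^[i] φ) :
    Gd ιinf ιp Lg κ η (Iv f φ d) := by
  classical
  have hB := bad_finite hs ιinf ιp Lg κ hN hκN η hη.tower hns
  obtain ⟨ξ, hξ, hb⟩ : ∃ ξ ∈ Hat η, ξ ∉ Bad ιinf ιp Lg κ η := by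
    by_contra hno
    push Not at hno
    exact hat_infinite hη.tower (hB.subset hno)
  have hgen : ∀ S, LeopoldtFor ιinf ιp Lg S (κ * ξ) ↔ Gd ιinf ιp Lg κ η S := by
    by_contra h
    exact hb ⟨hξ, h⟩
  obtain ⟨F, hFn, hFg, hFc⟩ := finOrd_field (hfin ξ hξ)
  have hFχ : ∀ g, (∀ x ∈ F, g x = x) → (κ * ξ) g = 1 := fun g hg ↦ (hFc g).2 hg
  obtain ⟨e, he⟩ := hE p K ιinf ιp
  obtain ⟨hfd, l, hl⟩ := hF p K Lg F (κ * ξ)
  have hdF := hdim ξ hξ F hFχ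
  set l' : (K →+* ℂ) → Dual ℂ_[p] (chiPart F (κ * ξ)) := fun φ ↦ l (e φ) with hl'
  have hdual : finrank ℂ_[p] (Dual ℂ_[p] (chiPart F (κ * ξ))) = d := by
    rw [Subspace.dual_finrank_eq, hdF]
  have himg : ∀ S : Set (K →+* ℂ), l' '' S = l '' (e '' S) := by
    intro S
    rw [Set.image_image]
  have hspan : ∀ S : Set (K →+* ℂ), Submodule.span ℂ_[p] (l' '' S) = ⊤ ↔
      Gd ιinf ιp Lg κ η S := by
    intro S
    rw [← hgen S, leopoldt_iff hF ιinf ιp Lg S F (κ * ξ) hFχ, he, himg]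
    have h1 := hl (e '' S)
    constructor
    · intro h2
      rw [h2, finrank_top, Subspace.dual_finrank_eq] at h1
      omega
    · intro h2
      apply Submodule.eq_top_of_finrank_eq
      rw [Subspace.dual_finrank_eq]
      omega
  rw [← hspan]
  refine span_interval l' ?_ f (2 * d) (by omega) hf1 ?_ φ hcyc d (by rw [hdual])
  · rw [← Set.image_univ, hspan]
    exact huniv
  · intro T hT
    rw [hspan] at hT ⊢
    exact hf T hT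

end Pool.Agent.Helper16.SB
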