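import Pool.Agent.Helper66.SB.GoalsB

/-!
# Project SB, packet LIF: lifting to nearby points
-/

set_option autoImplicit false

open Module MvPolynomial

noncomputable section

namespace Pool.Agent.Helper16.SB

open Helper18.Shgh Pool.Agent.Helper66.SB

/-- the index set of the conditions -/
abbrev Ix {r : ℕ} (w : Fin r → ℕ) : Type := (i : Fin r) × Tri (w i)

/-- the conditions at the points `P` -/
def cn {r : ℕ} (w : Fin r → ℕ) (P : Fin r → Fin 2 → ℂ) : R2 →ₗ[ℂ] (Ix w → ℂ) :=
  LinearMap.pi fun x => (LinearMap.proj x.2) ∘ₗ tayL (w x.1) (P x.1)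

theorem cn_apply {r : ℕ} (w : Fin r → ℕ) (P : Fin r → Fin 2 → ℂ) (G : R2) (x : Ix w) :
    cn w P G x = coeff (e2 x.2.2 (x.2.1 - x.2.2)) (tau (P x.1) G) := rfl

theorem two_card_Ix {r : ℕ} (w : Fin r → ℕ) :
    2 * (Fintype.card (Ix w) : ℤ) = ∑ i, (w i : ℤ) * ((w i : ℤ) + 1) := by
  rw [Fintype.card_sigma]
  push_cast
  rw [Finset.mul_sum]
  refine Finset.sum_congr rfl fun i _ => ?_
  rw [card_Tri]
  have h2 : (w i + 1).choose 2 * 2 = (w i + 1) * w i := by
    rw [Nat.choose_two_right, Nat.add_sub_cancel]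
    have := Nat.even_mul_succ_self (w i)
    rw [mul_comm] at this
    exact Nat.div_mul_cancel this.two_dvd
  have h3 : (((w i + 1).choose 2 : ℕ) : ℤ) * 2 = ((w i : ℤ) + 1) * w i := by exact_mod_cast h2
  linarith

theorem mem_of_cn {r : ℕ} {w : Fin r → ℕ} {P : Fin r → Fin 2 → ℂ} {G : R2} (h : cn w P G = 0)
    (i : Fin r) : G ∈ mI (P i) ^ w i := by
  apply mem_of_tayL
  funext t
  exact congrFun h ⟨i, t⟩

theorem cn_of_mem {r : ℕ} {w : Fin r → ℕ} {P : Fin r → Fin 2 → ℂ} {G : R2}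
    (h : ∀ i, G ∈ mI (P i) ^ w i) : cn w P G = 0 := by
  funext x
  rw [cn_apply]
  apply mem_mI_pow.1 (h x.1)
  rw [Finsupp.degree_eq_sum, Fin.sum_univ_two]
  have h1 : e2 (x.2.2 : ℕ) (x.2.1 - x.2.2) 0 = x.2.2 := rfl
  have h2 : e2 (x.2.2 : ℕ) (x.2.1 - x.2.2) 1 = x.2.1 - x.2.2 := rfl
  rw [h1, h2]
  have h3 := x.2.2.2
  have h4 := x.2.1.2
  omega

theorem cont_coeff (G : R2) : ∀ e : Fin 2 →₀ ℕ,
    Continuous fun P : Fin 2 → ℂ => coeff e (tau P G) := by
  induction G using MvPolynomial.induction_on with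
  | C a =>
    intro e
    have h : (fun P : Fin 2 → ℂ => coeff e (tau P (C a : R2))) = fun _ => coeff e (C a : R2) := by
      funext P
      have h1 : tau P (C a : R2) = C a := (tau P).commutes a
      rw [h1]
    rw [h]
    exact continuous_const
  | add p q hp hq =>
    intro e
    simp only [map_add, coeff_add]
    exact (hp e).add (hq e)
  | mul_X p i hp =>
    intro e
    have h : (fun P : Fin 2 → ℂ => coeff e (tau P (p * X i))) = fun P =>
        (if i ∈ e.support then coeff (e - Finsupp.single i 1) (tau P p) else 0) +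
          coeff e (tau P p) * P i := by
      funext P
      have h1 : tau P (X i : R2) = X i + C (P i) := by simp [tau]
      rw [map_mul, h1, mul_add, coeff_add, coeff_mul_X', mul_comm (tau P p) (C (P i)),
        coeff_C_mul, mul_comm (P i)]
    rw [h]
    refine Continuous.add ?_ ((hp e).mul (continuous_apply i))
    split_ifs
    · exact hp _
    · exact continuous_const

theorem cont_cn {r : ℕ} (w : Fin r → ℕ) (G : R2) (x : Ix w) :
    Continuous fun P : Fin r → Fin 2 → ℂ => cn w P G x := by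
  simp only [cn_apply]
  exact (cont_coeff G _).comp (continuous_apply x.1)

theorem cn_surj {r k : ℕ} {w : Fin r → ℕ} {P0 : Fin r → Fin 2 → ℂ}
    (h : 2 * (finrank ℂ (SP (k : ℤ) Finset.univ P0 w) : ℤ) = ch2 k Finset.univ w) :
    Function.Surjective ((cn w P0).domRestrict (V (k : ℤ))) := by
  obtain ⟨M, hM⟩ : ∃ M, M = (cn w P0).domRestrict (V (k : ℤ)) := ⟨_, rfl⟩
  rw [← hM]
  have h1 := LinearMap.finrank_range_add_finrank_ker M
  have h2 : finrank ℂ (LinearMap.ker M) ≤ finrank ℂ (SP (k : ℤ) Finset.univ P0 w) := by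
    have h3 := finrank_map_inj (V (k : ℤ)).subtype_injective (LinearMap.ker M)
    rw [← h3]
    apply Submodule.finrank_mono
    rintro _ ⟨x, hx, rfl⟩
    rw [mem_SP]
    refine ⟨x.2, fun i _ => ?_⟩
    apply mem_of_cn
    have h4 := LinearMap.mem_ker.1 hx
    rw [hM] at h4
    exact h4
  have h3 := le_finrank_V (k : ℤ) (by omega)
  have h4 := two_card_Ix w
  have h5 : Fintype.card (Ix w) ≤ finrank ℂ (LinearMap.range M) := by
    unfold ch2 at h
    have h6 : (finrank ℂ (LinearMap.range M) : ℤ) + finrank ℂ (LinearMap.ker M) =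
        finrank ℂ (V (k : ℤ)) := by exact_mod_cast h1
    have h7 : (finrank ℂ (LinearMap.ker M) : ℤ) ≤ finrank ℂ (SP (k : ℤ) Finset.univ P0 w) := by
      exact_mod_cast h2
    have h8 : (Fintype.card (Ix w) : ℤ) ≤ finrank ℂ (LinearMap.range M) := by linarith
    exact_mod_cast h8
  rw [← LinearMap.range_eq_top]
  apply Submodule.eq_top_of_finrank_eq
  apply le_antisymm (Submodule.finrank_le _)
  rw [finrank_fintype_fun_eq_card]
  exact h5

theorem gLIF : G_LIF := by
  intro r k w P0 F0 Pn hreg hF0 hP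
  obtain ⟨N, hN⟩ := LinearMap.exists_rightInverse_of_surjective _
    (LinearMap.range_eq_top.2 (cn_surj hreg))
  obtain ⟨NN, hNN⟩ : ∃ NN : (Ix w → ℂ) →ₗ[ℂ] R2, NN = (V (k : ℤ)).subtype ∘ₗ N := ⟨_, rfl⟩
  have hNV : ∀ u, NN u ∈ V (k : ℤ) := fun u => by rw [hNN]; exact (N u).2
  have hN1 : ∀ u, cn w P0 (NN u) = u := fun u => by
    have h1 := LinearMap.congr_fun hN u
    rw [hNN]
    exact h1
  -- the square matrix
  obtain ⟨A, hA⟩ : ∃ A : (Fin r → Fin 2 → ℂ) → Matrix (Ix w) (Ix w) ℂ,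
      A = fun P => LinearMap.toMatrix' (cn w P ∘ₗ NN) := ⟨_, rfl⟩
  have hAmul : ∀ P u, (A P).mulVec u = cn w P (NN u) := fun P u => by
    rw [hA]
    change (LinearMap.toMatrix' (cn w P ∘ₗ NN)).mulVec u = _
    rw [LinearMap.toMatrix'_mulVec]
    rfl
  have hAc : Continuous A := by
    rw [hA]
    refine continuous_matrix fun i j => ?_
    have h1 : (fun P => LinearMap.toMatrix' (cn w P ∘ₗ NN) i j) =
        fun P => cn w P (NN (Pi.single j 1)) i := by
      funext P
      rw [LinearMap.toMatrix'_apply]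
      rfl
    rw [h1]
    exact cont_cn w _ i
  have hA0 : A P0 = 1 := by
    rw [hA]
    change LinearMap.toMatrix' (cn w P0 ∘ₗ NN) = 1
    have h1 : cn w P0 ∘ₗ NN = LinearMap.id := LinearMap.ext fun u => hN1 u
    rw [h1, LinearMap.toMatrix'_id]
  obtain ⟨b, hb⟩ : ∃ b : (Fin r → Fin 2 → ℂ) → Ix w → ℂ, b = fun P => cn w P F0 := ⟨_, rfl⟩
  have hbc : Continuous b := by
    rw [hb]
    exact continuous_pi fun x => cont_cn w F0 x
  have hb0 : b P0 = 0 := by
    rw [hb]
    exact cn_of_mem fun i => hF0.2 i (Finset.mem_univ i)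
  obtain ⟨v, hv⟩ : ∃ v : (Fin r → Fin 2 → ℂ) → Ix w → ℂ,
      v = fun P => ((A P).det)⁻¹ • (A P).adjugate.mulVec (b P) := ⟨_, rfl⟩
  have hv1 : ∀ P, (A P).det ≠ 0 → cn w P (NN (v P)) = cn w P F0 := by
    intro P hd
    rw [← hAmul, hv]
    change (A P).mulVec (((A P).det)⁻¹ • (A P).adjugate.mulVec (b P)) = _
    rw [Matrix.mulVec_smul, Matrix.mulVec_mulVec, Matrix.mul_adjugate, Matrix.smul_mulVec,
      Matrix.one_mulVec, smul_smul, inv_mul_cancel₀ hd, one_smul, hb]
  have hdet : Filter.Tendsto (fun n => (A (Pn n)).det) Filter.atTop (nhds 1) := by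
    have h1 : Continuous fun P => (A P).det := hAc.matrix_det
    have h2 := (h1.tendsto P0).comp hP
    rw [hA0, Matrix.det_one] at h2
    exact h2
  have hvt : Filter.Tendsto (fun n => v (Pn n)) Filter.atTop (nhds 0) := by
    have h1 : Continuous fun P => (A P).adjugate.mulVec (b P) :=
      hAc.matrix_adjugate.matrix_mulVec hbc
    have h2 := (h1.tendsto P0).comp hP
    rw [hb0, Matrix.mulVec_zero] at h2
    have h3 := (hdet.inv₀ one_ne_zero).smul h2
    rw [smul_zero] at h3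
    rw [hv]
    exact h3
  classical
  refine ⟨fun n => if (A (Pn n)).det ≠ 0 then F0 - NN (v (Pn n)) else 0, fun n => ?_, fun e => ?_⟩
  · change (if (A (Pn n)).det ≠ 0 then F0 - NN (v (Pn n)) else 0) ∈ _
    split_ifs with hd
    · rw [mem_SP]
      refine ⟨Submodule.sub_mem _ hF0.1 (hNV _), fun i _ => ?_⟩
      apply mem_of_cn
      rw [map_sub, hv1 _ hd, sub_self]
    · exact Submodule.zero_mem _
  · have h1 : Continuous ((lcoeff ℂ e : R2 →ₗ[ℂ] ℂ) ∘ₗ NN) :=
      LinearMap.continuous_of_finiteDimensional _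
    have h2 := (h1.tendsto 0).comp hvt
    rw [map_zero] at h2
    have h3 : Filter.Tendsto (fun n => coeff e F0 - ((lcoeff ℂ e : R2 →ₗ[ℂ] ℂ) ∘ₗ NN) (v (Pn n)))
        Filter.atTop (nhds (coeff e F0)) := by
      have h4 := (tendsto_const_nhds (x := coeff e F0) (f := Filter.atTop (α := ℕ))).sub h2
      rw [sub_zero] at h4
      exact h4
    refine h3.congr' ?_
    have h5 : ∀ᶠ n in Filter.atTop, (A (Pn n)).det ≠ 0 :=
      hdet.eventually_ne one_ne_zero
    filter_upwards [h5] with n hn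
    rw [if_pos hn, coeff_sub]
    rfl

end Pool.Agent.Helper16.SB
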