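import Pool.Agent.Helper16.SB.Final
import Pool.Agent.Helper16.SB.Defs

/-!
# Project SB (MP_fc6b1e_nt): the theorem
-/

set_option autoImplicit false

namespace Pool.Agent.Helper16.SB

open NumberField Module
open Pool.Agent.Helper51.SigLeo
open Pool.Agent.Helper16.SD (SplitP)
open Pool.Agent.Helper38.FD (Chr LeopoldtFor)
open Pool.Agent.Helper38.TH (Hat)
open Pool.Agent.Helper38.SD (IsCyclo FinOrd Gen M_FUN goodFor_of)
open Pool.Agent.Helper38.SC (Sym Prog Primitive)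
open Pool.Agent.Helper38.SDS (GoodFor goodFor_iff)

/-- In degree `4` and `8` every CM type is primitive. -/
theorem primitive_of {K : Type} [Field K] [NumberField K] [IsTotallyComplex K] (g : K ≃ₐ[ℚ] K)
    (d : ℕ) (hd : finrank ℚ K = 2 * d) (hg : orderOf g = 2 * d) (h24 : d = 2 ∨ d = 4)
    (S : Set (K →+* ℂ)) (hS : IsCMType S) : Primitive S := by
  intro g' hg'
  obtain ⟨φ⟩ : Nonempty (K →+* ℂ) := inferInstance
  obtain ⟨i, hi, hi'⟩ := s_tor K ℂ g (by rw [hg, hd]) φ (cp φ g')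
  have hgi : g' = g ^ i := cp_injective φ hi'
  by_contra hne
  have hi0 : i ≠ 0 := by
    rintro rfl
    exact hne (by rw [hgi, pow_zero])
  rw [hd] at hi
  -- a power of `g'` is the complex conjugation
  obtain ⟨k, hk⟩ : ∃ k, (i * k) % (2 * d) = d := by
    rcases h24 with rfl | rfl
    · interval_cases i
      · exact absurd rfl hi0
      · exact ⟨2, rfl⟩
      · exact ⟨1, rfl⟩
      · exact ⟨2, rfl⟩
    · interval_cases i
      · exact absurd rfl hi0
      · exact ⟨4, rfl⟩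
      · exact ⟨2, rfl⟩
      · exact ⟨4, rfl⟩
      · exact ⟨1, rfl⟩
      · exact ⟨4, rfl⟩
      · exact ⟨2, rfl⟩
      · exact ⟨4, rfl⟩
  have hpow : g' ^ k = g ^ d := by
    rw [hgi, ← pow_mul, pow_eq_pow_iff_modEq, hg]
    show (i * k) % (2 * d) = d % (2 * d)
    rw [hk, Nat.mod_eq_of_lt (by rcases h24 with rfl | rfl <;> norm_num)]
  have hstab : ∀ (n : ℕ) (ψ : K →+* ℂ), ψ ∈ S → cp ψ (g' ^ n) ∈ S := by
    intro n
    induction n with
    | zero => intro ψ hψ; exact hψ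
    | succ n ih =>
      intro ψ hψ
      rw [pow_succ, ← cp_mul]
      exact hg' _ (ih ψ hψ)
  have hconj : ∀ ψ : K →+* ℂ, ψ ∈ S → ComplexEmbedding.conjugate ψ ∈ S := by
    intro ψ hψ
    rw [conj_eq g d hd hg ψ, ← hpow]
    exact hstab k ψ hψ
  by_cases h : φ ∈ S
  · exact (hS φ).1 h (hconj φ h)
  · apply h
    rw [hS φ]
    intro h1
    apply h
    have h2 := hconj _ h1
    have h3 : ComplexEmbedding.conjugate (ComplexEmbedding.conjugate φ) = φ :=
      ComplexEmbedding.involutive_conjugate K φ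
    rw [h3] at h2
    exact h2

/-- **Theorem B.** -/
theorem main_sb (p : ℕ) [Fact p.Prime] (K : Type) [Field K] [NumberField K] [IsTotallyComplex K]
    (d : ℕ) (hd : finrank ℚ K = 2 * d) (g : K ≃ₐ[ℚ] K) (hg : orderOf g = 2 * d)
    (hs : SplitP p K) (ιinf : AlgebraicClosure K →+* ℂ) (ιp : AlgebraicClosure K →+* ℂ_[p])
    (L : IwasawaLog p ℂ_[p]) (κ : Chr K (AlgebraicClosure K) ℂ_[p]) (hκ : FinOrd κ)
    (hG : Gen d ιinf κ) :
    (p ≠ 2 → ∀ η : ℕ → Chr K (AlgebraicClosure K) ℂ_[p], IsCyclo η → Sym (Hat η) g κ →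
      {ξ | ξ ∈ Hat η ∧ ∃ S : Set (K →+* ℂ), IsCMType S ∧ Adm d g S ∧
        ¬ GoodFor ιinf ιp L S (κ * ξ)}.Finite) ∧
    (d = 2 → Sym {1} g κ → ∀ S : Set (K →+* ℂ), IsCMType S → GoodFor ιinf ιp L S κ) := by
  have hF : M_FUN := Pool.Agent.Helper80.SD.m_fun
  refine ⟨fun hp2 η hη hsym ↦ ?_, fun hd2 hsym S hS ↦ ?_⟩
  · have hU : (⋃ S ∈ {S : Set (K →+* ℂ) | Cons d g S},
        {ξ | ξ ∈ Hat η ∧ ¬ LeopoldtFor ιinf ιp L S (κ * ξ)}).Finite :=
      Set.Finite.biUnion (Set.toFinite _) fun S hS ↦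
        sym_almost hp2 hs ιinf ιp L g d hd hg κ hκ hG η hη hsym S hS
    refine hU.subset ?_
    rintro ξ ⟨hξ, S, hS, hA, hb⟩
    have hcons : Cons d g S := by
      rcases hA with h | h | h | ⟨h, hP⟩
      · exact h
      · exact s_prim K g d hd hg (by omega) S hS (primitive_of g d hd hg (Or.inl h) S hS)
      · exact s_prim K g d hd hg (by omega) S hS (primitive_of g d hd hg (Or.inr h) S hS)
      · exact s_prim K g d hd hg (by omega) S hS hP
    simp only [Set.mem_iUnion]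
    refine ⟨S, hcons, hξ, fun hL ↦ hb ?_⟩
    rw [goodFor_iff]
    exact goodFor_of hF hs ιinf ιp L S _ hL
  · subst hd2
    rw [goodFor_iff]
    exact goodFor_of hF hs ιinf ιp L S _
      (sym_four hs ιinf ιp L g hd hg κ hκ hG hsym S hS)

end Pool.Agent.Helper16.SB
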