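import Pool.Agent.Helper16.SB.Main
import Pool.Agent.Helper16.SB.Gal
import Pool.Agent.Helper16.SB.Defs2

/-!
# Project SB (MP_fc6b1e_nt): the final form of the theorem
-/

set_option autoImplicit false

namespace Pool.Agent.Helper16.SB

open NumberField Module
open Pool.Agent.Helper51.SigLeo
open Pool.Agent.Helper16.SD (SplitP)
open Pool.Agent.Helper38.FD (Chr CutsOut)
open Pool.Agent.Helper38.TH (Hat)
open Pool.Agent.Helper38.SD (IsCyclo FinOrd Gen)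
open Pool.Agent.Helper38.SC (Sym)
open Pool.Agent.Helper38.SDS (GoodFor main_sds)

/-- **Theorem B.** -/
theorem main_sb2 (p : ℕ) [Fact p.Prime] (K : Type) [Field K] [NumberField K] [IsTotallyComplex K]
    (d : ℕ) (hd : finrank ℚ K = 2 * d) (g : K ≃ₐ[ℚ] K) (hg : orderOf g = 2 * d)
    (hs : SplitP p K) (ιinf : AlgebraicClosure K →+* ℂ) (ιp : AlgebraicClosure K →+* ℂ_[p])
    (L : IwasawaLog p ℂ_[p]) (κ : Chr K (AlgebraicClosure K) ℂ_[p]) (hκ : FinOrd κ)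
    (hG : Gen d ιinf κ) :
    (p ≠ 2 → ∀ η : ℕ → Chr K (AlgebraicClosure K) ℂ_[p], IsCyclo η → Sym (Hat η) g κ →
      {ξ | ξ ∈ Hat η ∧ ¬ AllGood d g ιinf ιp L (κ * ξ)}.Finite) ∧
    (d = 2 → Sym {1} g κ → ∀ S : Set (K →+* ℂ), IsCMType S → GoodFor ιinf ιp L S κ) ∧
    (∀ (H : IntermediateField K (AlgebraicClosure K)) (a : ℕ), CutsOut κ H → IsGalois ℚ H →
      κ ^ (2 * p ^ a) = 1 → Sym {1} g κ) := by
  obtain ⟨h1, h2⟩ := main_sb p K d hd g hg hs ιinf ιp L κ hκ hG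
  refine ⟨fun hp2 η hη hsym ↦ ?_, h2, fun H a hH hn hκa ↦
    sym_of_galois κ a hκa H hH hn.to_normal g⟩
  obtain ⟨F₀, _, _, _, _, hK2, hF₀⟩ := exists_real K g d hd hg
  have hG' : Gen (finrank ℚ F₀) ιinf κ := by
    rw [hF₀]
    exact hG
  have h3 := (main_sds p F₀ K hK2 ιinf ιp L κ hκ hG').2.1 hp2 hs η hη
  refine ((h1 hp2 η hη hsym).union h3).subset ?_
  rintro ξ ⟨hξ, hb⟩
  by_contra hnot
  simp only [Set.mem_union, Set.mem_ofPred_eq, not_or, not_and, not_not] at hnot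
  obtain ⟨h4, h5⟩ := hnot
  have h6 : ∀ S : Set (K →+* ℂ), IsCMType S → Adm d g S → GoodFor ιinf ιp L S (κ * ξ) := by
    intro S hS hA
    by_contra h7
    exact h4 hξ ⟨S, hS, hA, h7⟩
  apply hb
  refine ⟨h6, fun η' hη' ↦ ?_⟩
  refine ((h5 hξ).tower η' hη').subset ?_
  rintro ξ' ⟨hξ', S, hS, hA, h7⟩
  exact ⟨hξ', fun h8 ↦ h7 (h8.2.2 S (h6 S hS hA))⟩

end Pool.Agent.Helper16.SB
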