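import Mathlib

/-!
# Project SB (MP_fc6b1e_nt): finite extensions of `K` which are stable under the automorphisms of `ℚ̄` preserving `K`
-/

set_option autoImplicit false

namespace Pool.Agent.Helper16.SB

open Module Polynomial

variable {K : Type} [Field K] [NumberField K]

/-- A finite normal extension of `K` containing `H`, stable under all the automorphisms which preserve `K`. -/
theorem exists_stable (H : IntermediateField K (AlgebraicClosure K)) [FiniteDimensional K H] :
    ∃ E : IntermediateField K (AlgebraicClosure K), FiniteDimensional K E ∧ Normal K E ∧ H ≤ E ∧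
      ∀ γ : AlgebraicClosure K ≃+* AlgebraicClosure K,
        (∀ x : K, ∃ y : K, γ (algebraMap K (AlgebraicClosure K) x) =
          algebraMap K (AlgebraicClosure K) y) → ∀ x ∈ E, γ x ∈ E := by
  have hc : CharZero H := charZero_of_injective_algebraMap (algebraMap K H).injective
  have hfd : FiniteDimensional ℚ H := FiniteDimensional.trans ℚ K H
  obtain ⟨α, hα⟩ := Field.exists_primitive_element ℚ H
  have hint : IsIntegral ℚ α := Algebra.IsIntegral.isIntegral α
  set f : ℚ[X] := minpoly ℚ α with hf
  have hf0 : f ≠ 0 := minpoly.ne_zero hint
  set fK : K[X] := f.map (algebraMap ℚ K) with hfK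
  have hfK0 : fK ≠ 0 := (Polynomial.map_ne_zero_iff (algebraMap ℚ K).injective).2 hf0
  have hsp : (fK.map (algebraMap K (AlgebraicClosure K))).Splits := IsAlgClosed.splits _
  set E : IntermediateField K (AlgebraicClosure K) :=
    IntermediateField.adjoin K (fK.rootSet (AlgebraicClosure K)) with hE
  have hroot : ∀ x : AlgebraicClosure K, x ∈ fK.rootSet (AlgebraicClosure K) ↔
      Polynomial.eval₂ (algebraMap ℚ (AlgebraicClosure K)) x f = 0 := by
    intro x
    rw [Polynomial.mem_rootSet, Polynomial.aeval_def, hfK, Polynomial.eval₂_map]
    have h1 : (algebraMap K (AlgebraicClosure K)).comp (algebraMap ℚ K) =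
        algebraMap ℚ (AlgebraicClosure K) := Subsingleton.elim _ _
    rw [h1]
    exact ⟨fun h ↦ h.2, fun h ↦ ⟨hfK0, h⟩⟩
  have hsf : fK.IsSplittingField K E := IntermediateField.adjoin_rootSet_isSplittingField hsp
  have hEfd : FiniteDimensional K E := Polynomial.IsSplittingField.finiteDimensional E fK
  refine ⟨E, hEfd, Normal.of_isSplittingField fK, ?_, ?_⟩
  · intro x hx
    have hαE : (α : AlgebraicClosure K) ∈ E := by
      apply IntermediateField.subset_adjoin
      rw [hroot]
      have h1 : Polynomial.eval₂ (algebraMap ℚ (AlgebraicClosure K)) (α : AlgebraicClosure K) f =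
          algebraMap H (AlgebraicClosure K) (Polynomial.eval₂ (algebraMap ℚ H) α f) := by
        rw [Polynomial.hom_eval₂]
        congr 1
      rw [h1]
      have h2 : Polynomial.eval₂ (algebraMap ℚ H) α f = 0 := minpoly.aeval ℚ α
      rw [h2, map_zero]
    have h3 : (⟨x, hx⟩ : H) ∈ IntermediateField.adjoin ℚ {α} := by
      rw [hα]
      trivial
    have h4 : ∀ y : H, y ∈ IntermediateField.adjoin ℚ {α} → (y : AlgebraicClosure K) ∈ E := by
      intro y hy
      induction hy using IntermediateField.adjoin_induction with
      | mem z hz =>
        rw [Set.mem_singleton_iff] at hz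
        rw [hz]
        exact hαE
      | algebraMap q =>
        have h5 : ((algebraMap ℚ H q : H) : AlgebraicClosure K) =
            algebraMap K (AlgebraicClosure K) (algebraMap ℚ K q) := by
          have h6 : ((algebraMap H (AlgebraicClosure K)).comp (algebraMap ℚ H)) =
              (algebraMap K (AlgebraicClosure K)).comp (algebraMap ℚ K) := Subsingleton.elim _ _
          exact RingHom.congr_fun h6 q
        rw [h5]
        exact E.algebraMap_mem _
      | add a b _ _ ha hb => exact E.add_mem ha hb
      | inv a _ ha => exact E.inv_mem ha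
      | mul a b _ _ ha hb => exact E.mul_mem ha hb
    exact h4 _ h3
  · intro γ hγ x hx
    induction hx using IntermediateField.adjoin_induction with
    | mem z hz =>
      apply IntermediateField.subset_adjoin
      rw [hroot] at hz ⊢
      have h1 : Polynomial.eval₂ (algebraMap ℚ (AlgebraicClosure K)) (γ z) f =
          γ (Polynomial.eval₂ (algebraMap ℚ (AlgebraicClosure K)) z f) := by
        have h2 : ((γ : AlgebraicClosure K →+* AlgebraicClosure K).comp
            (algebraMap ℚ (AlgebraicClosure K))) = algebraMap ℚ (AlgebraicClosure K) :=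
          Subsingleton.elim _ _
        have h3 := Polynomial.hom_eval₂ f (algebraMap ℚ (AlgebraicClosure K))
          (γ : AlgebraicClosure K →+* AlgebraicClosure K) z
        rw [h2] at h3
        exact h3.symm
      rw [h1, hz, map_zero]
    | algebraMap y =>
      obtain ⟨z, hz⟩ := hγ y
      rw [hz]
      exact E.algebraMap_mem z
    | add a b _ _ ha hb =>
      rw [map_add]
      exact E.add_mem ha hb
    | inv a _ ha =>
      rw [map_inv₀]
      exact E.inv_mem ha
    | mul a b _ _ ha hb =>
      rw [map_mul]
      exact E.mul_mem ha hb

end Pool.Agent.Helper16.SB
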